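import Pool.Agent.Q184.LS.Dom

set_option autoImplicit false
set_option linter.unusedSectionVars false

/-!
# The core inequality for minimal triples
-/

namespace Pool.Agent.Q184.LS

open Pool.Agent.Y479.LS

variable {P : Type*} [Group P] [PartialOrder P] [MulLeftMono P] [MulRightMono P]

/-- `X` is at least a product of `N + 1` positive elements, `N - 1` of them equal to `C`, the other two
the conjugates of `C` by `z` and `z⁻¹`. -/
def Big (C X : P) (N : ℕ) : Prop :=
  ∃ (z : P) (i j l : ℕ), i + j + l + 2 = N ∧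
    C ^ i * (z * C * z⁻¹) * C ^ (j + 1) * (z⁻¹ * C * z) * C ^ l ≤ X

theorem Big.false {C X : P} {N : ℕ} (hC : 1 < C) (h : Big C X N) (hX : X ≤ C ^ N) : False := by
  obtain ⟨z, i, j, l, hN, h1⟩ := h
  have h2 : C ^ i * ((z * C * z⁻¹) * C ^ (j + 1) * (z⁻¹ * C * z)) * C ^ l ≤
      C ^ i * C ^ (j + 2) * C ^ l := by
    rw [← pow_add C i, ← pow_add C (i + (j + 2)), show i + (j + 2) + l = N by omega]
    refine le_trans (le_of_eq ?_) (h1.trans hX)
    simp only [mul_assoc]
  have h3 := le_of_mul_le_mul_left' (le_of_mul_le_mul_right' h2)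
  obtain ⟨h4, h5⟩ := squeeze (conj_pos' hC) (conj_pos hC) h3
  exact conj_false h4 h5

theorem Big.mono {C X Y : P} {N : ℕ} (h : Big C X N) (hXY : X ≤ Y) : Big C Y N := by
  obtain ⟨z, i, j, l, hN, h1⟩ := h
  exact ⟨z, i, j, l, hN, h1.trans hXY⟩

theorem Big.left {C X Y : P} {N M : ℕ} (t : ℕ) (h : Big C X N) (hY : C ^ t ≤ Y) (hM : M = N + t) :
    Big C (Y * X) M := by
  obtain ⟨z, i, j, l, hN, h1⟩ := h
  refine ⟨z, t + i, j, l, by omega, ?_⟩
  calc C ^ (t + i) * (z * C * z⁻¹) * C ^ (j + 1) * (z⁻¹ * C * z) * C ^ l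
      = C ^ t * (C ^ i * (z * C * z⁻¹) * C ^ (j + 1) * (z⁻¹ * C * z) * C ^ l) := by
        rw [pow_add C t i]; simp only [mul_assoc]
    _ ≤ Y * X := mul_le_mul' hY h1

theorem Big.right {C X Y : P} {N M : ℕ} (t : ℕ) (h : Big C X N) (hY : C ^ t ≤ Y) (hM : M = N + t) :
    Big C (X * Y) M := by
  obtain ⟨z, i, j, l, hN, h1⟩ := h
  refine ⟨z, i, j, l + t, by omega, ?_⟩
  calc C ^ i * (z * C * z⁻¹) * C ^ (j + 1) * (z⁻¹ * C * z) * C ^ (l + t)
      = (C ^ i * (z * C * z⁻¹) * C ^ (j + 1) * (z⁻¹ * C * z) * C ^ l) * C ^ t := by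
        rw [pow_add C l t]; simp only [mul_assoc]
    _ ≤ X * Y := mul_le_mul' h1 hY

/-- dropping the first factors -/
theorem pow_mul_le {C u : P} (hu : 1 ≤ u) : ∀ s : ℕ, C ^ (s + 1) * u ≤ (C * u) ^ (s + 1)
  | 0 => by rw [zero_add, pow_one, pow_one]
  | s + 1 => by
    rw [pow_succ' C, pow_succ' (C * u), mul_assoc]
    refine mul_le_mul' ?_ (pow_mul_le hu s)
    exact le_mul_of_one_le_right' hu

theorem mul_pow_le {C u : P} (hu : 1 ≤ u) : ∀ s : ℕ, u * C ^ (s + 1) ≤ (u * C) ^ (s + 1)
  | 0 => by rw [zero_add, pow_one, pow_one]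
  | s + 1 => by
    rw [pow_succ C, pow_succ (u * C), ← mul_assoc]
    refine mul_le_mul' (mul_pow_le hu s) ?_
    exact le_mul_of_one_le_left' hu

theorem le_of_le_mul {a b x : P} (h : a * x ≤ b * x) : a ≤ b := le_of_mul_le_mul_right' h
theorem le_of_mul_le {a b x : P} (h : x * a ≤ x * b) : a ≤ b := le_of_mul_le_mul_left' h

/-- From `z C z⁻¹` and `z⁻¹ C z`: the estimates for the base of the induction. -/
theorem base_est {C z v : P} {s : ℕ} (hC : 1 < C) (hv : v ^ (s + 1) ≤ z)
    (h : C * z * C ≤ z * v ∨ C * z * C ≤ v * z) :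
    C ^ (s + 1) * (z * C * z⁻¹) ≤ z ∧ (z⁻¹ * C * z) * C ^ (s + 1) ≤ z ∧ C ^ (s + 1) ≤ z := by
  have hu : 1 ≤ z * C * z⁻¹ := (conj_pos' hC).le
  have hw : 1 ≤ z⁻¹ * C * z := (conj_pos hC).le
  have key : (C * (z * C * z⁻¹)) ^ (s + 1) ≤ z ∧ ((z⁻¹ * C * z) * C) ^ (s + 1) ≤ z := by
    rcases h with h | h
    · have h1 : (z⁻¹ * C * z) * C ≤ v := by
        refine le_of_mul_le (x := z) ?_
        calc z * (z⁻¹ * C * z * C) = C * z * C := by group
          _ ≤ z * v := h
      have h2 := (pow_le_pow_of_le h1 (s + 1)).trans hv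
      refine ⟨?_, h2⟩
      have h3 := conj_le z h2
      rw [mul_inv_cancel_right, ← conj_pow] at h3
      have e : z * (z⁻¹ * C * z * C) * z⁻¹ = C * (z * C * z⁻¹) := by group
      rwa [e] at h3
    · have h1 : C * (z * C * z⁻¹) ≤ v := by
        refine le_of_le_mul (x := z) ?_
        calc C * (z * C * z⁻¹) * z = C * z * C := by group
          _ ≤ v * z := h
      have h2 := (pow_le_pow_of_le h1 (s + 1)).trans hv
      refine ⟨h2, ?_⟩
      have h3 := conj_le z⁻¹ h2
      rw [inv_inv, inv_mul_cancel, one_mul] at h3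
      have e : (z⁻¹ * (C * (z * C * z⁻¹)) * z) = z⁻¹ * C * z * C := by group
      have h4 : (z⁻¹ * C * z * C) ^ (s + 1) = z⁻¹ * (C * (z * C * z⁻¹)) ^ (s + 1) * z := by
        rw [← e]
        have := conj_pow (i := s + 1) (a := z⁻¹) (b := C * (z * C * z⁻¹))
        rwa [inv_inv] at this
      rwa [← h4] at h3
  refine ⟨(pow_mul_le hu s).trans key.1, (mul_pow_le hw s).trans key.2, ?_⟩
  refine le_trans ?_ ((mul_pow_le hw s).trans key.2)
  exact le_mul_of_one_le_left' hw

/-- The system of inequalities for two Farey neighbours `p / q < r / s`. -/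
theorem sys {C : P} (hC : 1 < C) : ∀ (n p q r s : ℕ) (A B : P), p + q + r + s ≤ n →
    q * r = p * s + 1 → Dom s r (C * B) A → Dom p q (A * C) B →
    (∀ t, t + 1 = q + s → C ^ t ≤ A) ∧ (∀ t, t + 1 = p + r → C ^ t ≤ B) ∧
      Big C (A * C * B) (p + q + r + s) ∧ Big C (B * A * C) (p + q + r + s) ∧
      Big C (C * B * A) (p + q + r + s) := by
  intro n
  induction n with
  | zero =>
    intro p q r s A B h1 _ h3 _
    have := h3.pos
    omega
  | succ n ih =>
    intro p q r s A B hn hF hA hB
    obtain ⟨hs1, hr1⟩ := hA.pos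
    obtain ⟨hp1, hq1⟩ := hB.pos
    have hCC : ∀ x : P, 1 ≤ x * C * x⁻¹ := fun x => (conj_pos' hC).le
    have hCC' : ∀ x : P, 1 ≤ x⁻¹ * C * x := fun x => (conj_pos hC).le
    rcases lt_trichotomy s r with hsr | hsr | hsr
    · -- `s < r`, so `q ≤ p`
      have hqp : q ≤ p := by
        by_contra hcon
        push Not at hcon
        nlinarith
      rcases hqp.eq_or_lt with hqp | hqp
      · -- base I
        subst hqp
        obtain ⟨hq, h1⟩ := hB.inv_unit rfl
        subst hq
        have hr : r = s + 1 := by omega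
        subst hr
        obtain ⟨v, hv, h2, h3⟩ := hA.inv_ser (q₁ := 1) rfl le_rfl
        obtain ⟨s, rfl⟩ := Nat.exists_eq_add_of_le' hs1
        have h4 := h2.pow_le rfl
        have h5 : C * A * C ≤ C * B := by
          rw [mul_assoc]; exact mul_le_mul_right h1 _
        obtain ⟨k1, k2, k3⟩ := base_est (s := s) hC h4
          (h3.symm.imp (fun h => h5.trans h) (fun h => h5.trans h))
        have k4 : Big C (A * C * (A * C)) (1 + 1 + (s + 1 + 1) + (s + 1)) := by
          refine ⟨A, s + 1, 0, s + 2, by ring, ?_⟩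
          calc C ^ (s + 1) * (A * C * A⁻¹) * C ^ (0 + 1) * (A⁻¹ * C * A) * C ^ (s + 2)
              = (C ^ (s + 1) * (A * C * A⁻¹)) * C * (((A⁻¹ * C * A) * C ^ (s + 1)) * C) := by
                rw [pow_succ C (s + 1), zero_add, pow_one]; simp only [mul_assoc]
            _ ≤ A * C * (A * C) := mul_le_mul' (mul_le_mul_left k1 _) (mul_le_mul_left k2 _)
        have k5 : Big C (C * A * (C * A)) (1 + 1 + (s + 1 + 1) + (s + 1)) := by
          refine ⟨A, s + 2, 0, s + 1, by ring, ?_⟩
          calc C ^ (s + 2) * (A * C * A⁻¹) * C ^ (0 + 1) * (A⁻¹ * C * A) * C ^ (s + 1)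
              = C * (C ^ (s + 1) * (A * C * A⁻¹)) * (C * ((A⁻¹ * C * A) * C ^ (s + 1))) := by
                rw [pow_succ' C (s + 1), zero_add, pow_one]; simp only [mul_assoc]
            _ ≤ C * A * (C * A) := mul_le_mul' (mul_le_mul_right k1 _) (mul_le_mul_right k2 _)
        refine ⟨?_, ?_, ?_, ?_, ?_⟩
        · intro t ht
          have : t = s + 1 := by omega
          rw [this]; exact k3
        · intro t ht
          have : t = s + 1 + 1 := by omega
          rw [this, pow_succ]
          exact (mul_le_mul_left k3 _).trans h1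
        · exact k4.mono (mul_le_mul_right h1 _)
        · refine k4.mono ?_
          rw [mul_assoc B]
          exact mul_le_mul_left h1 _
        · refine k5.mono ?_
          calc C * A * (C * A) = C * (A * C) * A := by simp only [mul_assoc]
            _ ≤ C * B * A := mul_le_mul_left (mul_le_mul_right h1 _) _
      · -- step 2
        obtain ⟨p₁, rfl⟩ := Nat.exists_eq_add_of_lt hqp
        obtain ⟨r₁, rfl⟩ := Nat.exists_eq_add_of_lt hsr
        obtain ⟨B', h1, h2⟩ := hB.inv_par (p₁ := p₁ + 1) (by ring) (by omega)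
        obtain ⟨v, hv, h3, h4⟩ := hA.inv_ser (q₁ := r₁ + 1) (by ring) (by omega)
        have h5 : Dom s (r₁ + 1) (C * B') A := by
          rcases h2 with h2 | h2
          · obtain ⟨v, hv, h3, h4⟩ := hA.inv_serR (q₁ := r₁ + 1) (by ring) (by omega)
            refine h3.mono ?_ le_rfl
            refine le_of_mul_le (x := A) (le_trans ?_ h4)
            calc A * (C * B') ≤ C * (A * (C * B')) := le_mul_of_one_le_left' hC.le
              _ = C * (A * C * B') := by simp only [mul_assoc]
              _ ≤ C * B := mul_le_mul_right h2 _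
          · obtain ⟨v, hv, h3, h4⟩ := hA.inv_serL (q₁ := r₁ + 1) (by ring) (by omega)
            refine h3.mono ?_ le_rfl
            refine le_of_le_mul (x := A) (le_trans ?_ h4)
            calc C * B' * A ≤ C * B' * A * C := le_mul_of_one_le_right' hC.le
              _ = C * (B' * (A * C)) := by simp only [mul_assoc]
              _ ≤ C * B := mul_le_mul_right h2 _
        obtain ⟨i1, i2, i3, i4, i5⟩ := ih (p₁ + 1) q (r₁ + 1) s A B' (by omega)
          (by nlinarith) h5 h1
        obtain ⟨t, ht⟩ := Nat.exists_eq_add_of_le' (show 1 ≤ q + s by omega)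
        have i1' := i1 t ht.symm
        have hAC : C ^ (t + 1) ≤ A * C := by rw [pow_succ]; exact mul_le_mul_left i1' _
        have hCA : C ^ (t + 1) ≤ C * A := by rw [pow_succ']; exact mul_le_mul_right i1' _
        have hM : q + p₁ + 1 + q + (s + r₁ + 1) + s = p₁ + 1 + q + (r₁ + 1) + s + (t + 1) := by
          omega
        refine ⟨i1, ?_, ?_, ?_, ?_⟩
        · intro t' ht'
          have i2' := i2 (p₁ + r₁ + 1) (by ring)
          have e : t' = (t + 1) + (p₁ + r₁ + 1) := by omega
          rcases h2 with h2 | h2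
          · rw [e, pow_add]
            exact (mul_le_mul' hAC i2').trans h2
          · rw [e, add_comm, pow_add]
            exact (mul_le_mul' i2' hAC).trans h2
        · rcases h2 with h2 | h2
          · exact (i3.left (t + 1) hAC hM).mono (mul_le_mul_right h2 _)
          · refine (i3.right (t + 1) hAC hM).mono ?_
            rw [mul_assoc (A * C)]
            exact mul_le_mul_right h2 _
        · rw [show B * A * C = B * (A * C) by rw [mul_assoc]]
          rcases h2 with h2 | h2
          · refine (i4.left (t + 1) hAC hM).mono ?_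
            rw [show A * C * (B' * A * C) = A * C * B' * (A * C) by simp only [mul_assoc]]
            exact mul_le_mul_left h2 _
          · refine (i4.right (t + 1) hAC hM).mono ?_
            rw [show B' * A * C * (A * C) = B' * (A * C) * (A * C) by simp only [mul_assoc]]
            exact mul_le_mul_left h2 _
        · rcases h2 with h2 | h2
          · refine (i5.left (t + 1) hCA hM).mono ?_
            rw [show C * A * (C * B' * A) = C * (A * C * B') * A by simp only [mul_assoc]]
            exact mul_le_mul_left (mul_le_mul_right h2 _) _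
          · refine (i5.right (t + 1) hCA hM).mono ?_
            rw [show C * B' * A * (C * A) = C * (B' * (A * C)) * A by simp only [mul_assoc]]
            exact mul_le_mul_left (mul_le_mul_right h2 _) _
    · -- `s = r`: base II
      subst hsr
      obtain ⟨hs, h1⟩ := hA.inv_unit rfl
      subst hs
      have hq : q = p + 1 := by omega
      subst hq
      obtain ⟨v, hv, h2, h3⟩ := hB.inv_ser (q₁ := 1) rfl le_rfl
      obtain ⟨p, rfl⟩ := Nat.exists_eq_add_of_le' hp1
      have h4 := h2.pow_le rfl
      have h5 : C * B * C ≤ A * C := mul_le_mul_left h1 _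
      obtain ⟨k1, k2, k3⟩ := base_est (s := p) hC h4
        (h3.symm.imp (fun h => h5.trans h) (fun h => h5.trans h))
      have k4 : Big C (B * C * (B * C)) (p + 1 + (p + 1 + 1) + 1 + 1) := by
        refine ⟨B, p + 1, 0, p + 2, by ring, ?_⟩
        calc C ^ (p + 1) * (B * C * B⁻¹) * C ^ (0 + 1) * (B⁻¹ * C * B) * C ^ (p + 2)
            = (C ^ (p + 1) * (B * C * B⁻¹)) * C * (((B⁻¹ * C * B) * C ^ (p + 1)) * C) := by
              rw [pow_succ C (p + 1), zero_add, pow_one]; simp only [mul_assoc]
          _ ≤ B * C * (B * C) := mul_le_mul' (mul_le_mul_left k1 _) (mul_le_mul_left k2 _)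
      have k5 : Big C (C * B * (C * B)) (p + 1 + (p + 1 + 1) + 1 + 1) := by
        refine ⟨B, p + 2, 0, p + 1, by ring, ?_⟩
        calc C ^ (p + 2) * (B * C * B⁻¹) * C ^ (0 + 1) * (B⁻¹ * C * B) * C ^ (p + 1)
            = C * (C ^ (p + 1) * (B * C * B⁻¹)) * (C * ((B⁻¹ * C * B) * C ^ (p + 1))) := by
              rw [pow_succ' C (p + 1), zero_add, pow_one]; simp only [mul_assoc]
          _ ≤ C * B * (C * B) := mul_le_mul' (mul_le_mul_right k1 _) (mul_le_mul_right k2 _)
      refine ⟨?_, ?_, ?_, ?_, ?_⟩
      · intro t ht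
        have : t = p + 1 + 1 := by omega
        rw [this, pow_succ']
        exact (mul_le_mul_right k3 _).trans h1
      · intro t ht
        have : t = p + 1 := by omega
        rw [this]; exact k3
      · refine k5.mono ?_
        rw [mul_assoc A]
        exact mul_le_mul_left h1 _
      · refine k4.mono ?_
        calc B * C * (B * C) = B * (C * B) * C := by simp only [mul_assoc]
          _ ≤ B * A * C := mul_le_mul_left (mul_le_mul_right h1 _) _
      · exact k5.mono (mul_le_mul_right h1 _)
    · -- `s > r`, so `q > p`: step 1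
      have hqp : p < q := by
        by_contra hcon
        push Not at hcon
        nlinarith
      obtain ⟨q₁, rfl⟩ := Nat.exists_eq_add_of_lt hqp
      obtain ⟨s₁, rfl⟩ := Nat.exists_eq_add_of_lt hsr
      obtain ⟨A', h1, h2⟩ := hA.inv_par (p₁ := s₁ + 1) (by ring) (by omega)
      have h5 : Dom p (q₁ + 1) (A' * C) B := by
        rcases h2 with h2 | h2
        · obtain ⟨v, hv, h3, h4⟩ := hB.inv_serR (q₁ := q₁ + 1) (by ring) (by omega)
          refine h3.mono ?_ le_rfl
          refine le_of_mul_le (x := B) (le_trans ?_ h4)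
          calc B * (A' * C) ≤ C * (B * (A' * C)) := le_mul_of_one_le_left' hC.le
            _ = (C * B * A') * C := by simp only [mul_assoc]
            _ ≤ A * C := mul_le_mul_left h2 _
        · obtain ⟨v, hv, h3, h4⟩ := hB.inv_serL (q₁ := q₁ + 1) (by ring) (by omega)
          refine h3.mono ?_ le_rfl
          refine le_of_le_mul (x := B) (le_trans ?_ h4)
          calc A' * C * B ≤ A' * C * B * C := le_mul_of_one_le_right' hC.le
            _ = (A' * (C * B)) * C := by simp only [mul_assoc]
            _ ≤ A * C := mul_le_mul_left h2 _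
      obtain ⟨i1, i2, i3, i4, i5⟩ := ih p (q₁ + 1) r (s₁ + 1) A' B (by omega)
        (by nlinarith) h1 h5
      obtain ⟨t, ht⟩ := Nat.exists_eq_add_of_le' (show 1 ≤ p + r by omega)
      have i2' := i2 t ht.symm
      have hBC : C ^ (t + 1) ≤ B * C := by rw [pow_succ]; exact mul_le_mul_left i2' _
      have hCB : C ^ (t + 1) ≤ C * B := by rw [pow_succ']; exact mul_le_mul_right i2' _
      have hM : p + (p + q₁ + 1) + r + (r + s₁ + 1) = p + (q₁ + 1) + r + (s₁ + 1) + (t + 1) := by
        omega
      refine ⟨?_, i2, ?_, ?_, ?_⟩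
      · intro t' ht'
        have i1' := i1 (q₁ + s₁ + 1) (by ring)
        have e : t' = (t + 1) + (q₁ + s₁ + 1) := by omega
        rcases h2 with h2 | h2
        · rw [e, pow_add]
          exact (mul_le_mul' hCB i1').trans h2
        · rw [e, add_comm, pow_add]
          exact (mul_le_mul' i1' hCB).trans h2
      · rw [show A * C * B = A * (C * B) by rw [mul_assoc]]
        rcases h2 with h2 | h2
        · refine (i3.left (t + 1) hCB hM).mono ?_
          rw [show C * B * (A' * C * B) = C * B * A' * (C * B) by simp only [mul_assoc]]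
          exact mul_le_mul_left h2 _
        · refine (i3.right (t + 1) hCB hM).mono ?_
          rw [show A' * C * B * (C * B) = A' * (C * B) * (C * B) by simp only [mul_assoc]]
          exact mul_le_mul_left h2 _
      · rcases h2 with h2 | h2
        · refine (i4.left (t + 1) hBC hM).mono ?_
          rw [show B * C * (B * A' * C) = B * (C * B * A') * C by simp only [mul_assoc]]
          exact mul_le_mul_left (mul_le_mul_right h2 _) _
        · refine (i4.right (t + 1) hBC hM).mono ?_
          rw [show B * A' * C * (B * C) = B * (A' * (C * B)) * C by simp only [mul_assoc]]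
          exact mul_le_mul_left (mul_le_mul_right h2 _) _
      · rcases h2 with h2 | h2
        · refine (i5.left (t + 1) hCB hM).mono ?_
          rw [show C * B * (C * B * A') = C * B * (C * B * A') by rfl]
          exact mul_le_mul_right h2 _
        · refine (i5.right (t + 1) hCB hM).mono ?_
          rw [show C * B * A' * (C * B) = C * B * (A' * (C * B)) by simp only [mul_assoc]]
          exact mul_le_mul_right h2 _

end Pool.Agent.Q184.LS
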