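import Pool.Agent.Y479.LS.Sph

set_option autoImplicit false
set_option linter.unusedSectionVars false

/-!
# Rational lower bounds in partially ordered groups

`Dom p q g A` is the noncommutative version of the inequality `A ≥ (p / q) g` (current against voltage)
that is forced by a rational tangle of fraction `p / q`. The main theorem `sys` is the noncommutative
version of the theorem of Jankins, Neumann and Naimi for a minimal triple of invariants.
-/

namespace Pool.Agent.Q184.LS

open Pool.Agent.Y479.LS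

variable {P : Type*} [Group P] [PartialOrder P] [MulLeftMono P] [MulRightMono P]

/-- The voltage `g` forces at least the current `A`: a unit resistance; one more unit in parallel; one
more unit in series. -/
inductive Dom : ℕ → ℕ → P → P → Prop
  | unit {g A : P} : g ≤ A → Dom 1 1 g A
  | parL {p q : ℕ} {g A A' : P} : Dom p q g A' → g * A' ≤ A → Dom (p + q) q g A
  | parR {p q : ℕ} {g A A' : P} : Dom p q g A' → A' * g ≤ A → Dom (p + q) q g A
  | serL {p q : ℕ} {g v A : P} : 1 ≤ v → Dom p q v A → g ≤ v * A → Dom p (p + q) g A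
  | serR {p q : ℕ} {g v A : P} : 1 ≤ v → Dom p q v A → g ≤ A * v → Dom p (p + q) g A

theorem conj_le {a b : P} (x : P) (h : a ≤ b) : x * a * x⁻¹ ≤ x * b * x⁻¹ :=
  mul_le_mul_left (mul_le_mul_right h x) x⁻¹

theorem one_le_conj {a : P} (x : P) (h : 1 ≤ a) : 1 ≤ x * a * x⁻¹ := by
  have := conj_le x h
  rwa [mul_one, mul_inv_cancel] at this

theorem one_le_conj' {a : P} (x : P) (h : 1 ≤ a) : 1 ≤ x⁻¹ * a * x := by
  have := one_le_conj x⁻¹ h
  rwa [inv_inv] at this

namespace Dom

theorem pos {p q : ℕ} {g A : P} (h : Dom p q g A) : 1 ≤ p ∧ 1 ≤ q := by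
  induction h with
  | unit _ => exact ⟨le_rfl, le_rfl⟩
  | parL _ _ ih => exact ⟨by omega, ih.2⟩
  | parR _ _ ih => exact ⟨by omega, ih.2⟩
  | serL _ _ _ ih => exact ⟨ih.1, by omega⟩
  | serR _ _ _ ih => exact ⟨ih.1, by omega⟩

theorem mono {p q : ℕ} {g A : P} (h : Dom p q g A) :
    ∀ {g' A' : P}, g' ≤ g → A ≤ A' → Dom p q g' A' := by
  induction h with
  | unit h => exact fun h1 h2 => unit (h1.trans (h.trans h2))
  | parL _ h ih => exact fun h1 h2 => parL (ih h1 le_rfl) ((mul_le_mul_left h1 _).trans (h.trans h2))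
  | parR _ h ih => exact fun h1 h2 => parR (ih h1 le_rfl) ((mul_le_mul_right h1 _).trans (h.trans h2))
  | serL hv _ h ih =>
    exact fun h1 h2 => serL hv (ih le_rfl h2) (h1.trans (h.trans (mul_le_mul_right h2 _)))
  | serR hv _ h ih =>
    exact fun h1 h2 => serR hv (ih le_rfl h2) (h1.trans (h.trans (mul_le_mul_left h2 _)))

theorem conj {p q : ℕ} {g A : P} (h : Dom p q g A) (x : P) :
    Dom p q (x * g * x⁻¹) (x * A * x⁻¹) := by
  have e : ∀ a b : P, x * (a * b) * x⁻¹ = (x * a * x⁻¹) * (x * b * x⁻¹) := fun a b => by group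
  induction h with
  | unit h => exact unit (conj_le x h)
  | parL _ h ih => exact parL ih (by rw [← e]; exact conj_le x h)
  | parR _ h ih => exact parR ih (by rw [← e]; exact conj_le x h)
  | serL hv _ h ih => exact serL (one_le_conj x hv) ih (by rw [← e]; exact conj_le x h)
  | serR hv _ h ih => exact serR (one_le_conj x hv) ih (by rw [← e]; exact conj_le x h)

theorem inv_unit {p q : ℕ} {g A : P} (h : Dom p q g A) (e : p = q) : p = 1 ∧ g ≤ A := by
  cases h with
  | unit h => exact ⟨rfl, h⟩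
  | parL h _ => have := h.pos; omega
  | parR h _ => have := h.pos; omega
  | serL _ h _ => have := h.pos; omega
  | serR _ h _ => have := h.pos; omega

theorem inv_par {p q p₁ : ℕ} {g A : P} (h : Dom p q g A) (e : p = p₁ + q) (hp : 1 ≤ p₁) :
    ∃ A', Dom p₁ q g A' ∧ (g * A' ≤ A ∨ A' * g ≤ A) := by
  cases h with
  | unit h => omega
  | @parL p₀ _ _ _ A' h h' =>
    have : p₀ = p₁ := by omega
    subst this
    exact ⟨A', h, Or.inl h'⟩
  | @parR p₀ _ _ _ A' h h' =>
    have : p₀ = p₁ := by omega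
    subst this
    exact ⟨A', h, Or.inr h'⟩
  | serL _ h _ => have := h.pos; omega
  | serR _ h _ => have := h.pos; omega

theorem inv_ser {p q q₁ : ℕ} {g A : P} (h : Dom p q g A) (e : q = p + q₁) (hq : 1 ≤ q₁) :
    ∃ v, 1 ≤ v ∧ Dom p q₁ v A ∧ (g ≤ v * A ∨ g ≤ A * v) := by
  cases h with
  | unit h => omega
  | parL h _ => have := h.pos; omega
  | parR h _ => have := h.pos; omega
  | @serL _ q₀ _ v _ hv h h' =>
    have : q₀ = q₁ := by omega
    subst this
    exact ⟨v, hv, h, Or.inl h'⟩
  | @serR _ q₀ _ v _ hv h h' =>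
    have : q₀ = q₁ := by omega
    subst this
    exact ⟨v, hv, h, Or.inr h'⟩

/-- the voltage may be moved around the current -/
theorem inv_serR {p q q₁ : ℕ} {g A : P} (h : Dom p q g A) (e : q = p + q₁) (hq : 1 ≤ q₁) :
    ∃ v, 1 ≤ v ∧ Dom p q₁ v A ∧ g ≤ A * v := by
  obtain ⟨v, hv, h1, h2 | h2⟩ := h.inv_ser e hq
  · refine ⟨A⁻¹ * v * A, one_le_conj' A hv, ?_, ?_⟩
    · have := h1.conj A⁻¹
      rwa [inv_inv, inv_mul_cancel, one_mul] at this
    · rwa [mul_assoc A⁻¹, mul_inv_cancel_left]
  · exact ⟨v, hv, h1, h2⟩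

theorem inv_serL {p q q₁ : ℕ} {g A : P} (h : Dom p q g A) (e : q = p + q₁) (hq : 1 ≤ q₁) :
    ∃ v, 1 ≤ v ∧ Dom p q₁ v A ∧ g ≤ v * A := by
  obtain ⟨v, hv, h1, h2 | h2⟩ := h.inv_ser e hq
  · exact ⟨v, hv, h1, h2⟩
  · refine ⟨A * v * A⁻¹, one_le_conj A hv, ?_, ?_⟩
    · have := h1.conj A
      rwa [mul_inv_cancel_right] at this
    · rwa [inv_mul_cancel_right]

theorem pow_le {p q : ℕ} {v A : P} (h : Dom p q v A) (hq : q = 1) : v ^ p ≤ A := by
  induction h with
  | unit h => rw [pow_one]; exact h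
  | @parL p q g A A' _ h' ih =>
    subst hq
    rw [pow_succ']
    exact (mul_le_mul_right (ih rfl) _).trans h'
  | @parR p q g A A' _ h' ih =>
    subst hq
    rw [pow_succ]
    exact (mul_le_mul_left (ih rfl) _).trans h'
  | serL _ h _ _ => have := h.pos; omega
  | serR _ h _ _ => have := h.pos; omega

theorem le_pow {p q : ℕ} {v A : P} (h : Dom p q v A) (hp : p = 1) : v ≤ A ^ q := by
  induction h with
  | unit h => rw [pow_one]; exact h
  | parL h _ _ => have := h.pos; omega
  | parR h _ _ => have := h.pos; omega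
  | @serL p q g v A _ _ h' ih =>
    subst hp
    rw [add_comm, pow_succ]
    exact h'.trans (mul_le_mul_left (ih rfl) _)
  | @serR p q g v A _ _ h' ih =>
    subst hp
    rw [add_comm, pow_succ']
    exact h'.trans (mul_le_mul_right (ih rfl) _)

theorem one_le {p q : ℕ} {g A : P} (h : Dom p q g A) : 1 ≤ g → 1 ≤ A := by
  induction h with
  | unit h => exact fun h1 => h1.trans h
  | parL _ h ih => exact fun h1 => (one_le_mul h1 (ih h1)).trans h
  | parR _ h ih => exact fun h1 => (one_le_mul (ih h1) h1).trans h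
  | serL hv _ _ ih => exact fun _ => ih hv
  | serR hv _ _ ih => exact fun _ => ih hv

theorem one_lt {p q : ℕ} {g A : P} (h : Dom p q g A) : 1 < g → 1 < A := by
  induction h with
  | unit h => exact fun h1 => lt_of_lt_of_le h1 h
  | @parL p q g A A' h' h ih =>
    exact fun h1 => lt_of_lt_of_le (lt_of_lt_of_le h1 (le_mul_of_one_le_right' (h'.one_le h1.le))) h
  | @parR p q g A A' h' h ih =>
    exact fun h1 => lt_of_lt_of_le (lt_of_lt_of_le h1 (le_mul_of_one_le_left' (h'.one_le h1.le))) h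
  | @serL p q g v A hv h' h ih =>
    intro h1
    refine lt_of_le_of_ne (h'.one_le hv) fun hA => ?_
    subst hA
    rw [mul_one] at h
    exact absurd (ih (lt_of_lt_of_le h1 h)) (lt_irrefl _)
  | @serR p q g v A hv h' h ih =>
    intro h1
    refine lt_of_le_of_ne (h'.one_le hv) fun hA => ?_
    subst hA
    rw [one_mul] at h
    exact absurd (ih (lt_of_lt_of_le h1 h)) (lt_irrefl _)

end Dom

end Pool.Agent.Q184.LS
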