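import Pool.Agent.Q184.LS.Prod
import Pool.Agent.Y479.LS.Union

set_option autoImplicit false
set_option linter.unusedSectionVars false

/-!
# Rational tangles contained in an alternating tangle

The notions are stated for one colour of a tangle diagram (`Pool.Agent.Y479.LS.Side`): `v₁ v₂ : C → V`
are the regions of this colour at the crossings, `e₁ e₂ : C → E` those of the other colour, `p`, `q`
and `a`, `b` are the regions at the boundary circle.
-/

namespace Pool.Agent.Q184.LS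

open Pool.Agent.Y479.LS Relation

section defs

variable {V E C : Type} (v₁ v₂ : C → V) (e₁ e₂ : C → E) (p q : V) (a b : E)

/-- The regions `u`, `v` separate the region `x` from the two regions `p`, `q` at the boundary
circle. -/
def Cut (u v x : V) : Prop :=
  x ≠ u ∧ x ≠ v ∧ ∀ y, ReflTransGen (fun y z => Adj v₁ v₂ y z ∧ z ≠ u ∧ z ≠ v) x y → y ≠ p ∧ y ≠ q

/-- The order of the regions of one colour that is forced by the diagram: `p` and `a` are the first,
`q` and `b` the last regions; at a crossing an inequality of the two regions of one colour gives one for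
the other colour; a region that is separated from the boundary circle by `u ≤ v` lies between them. -/
inductive Below : V ⊕ E → V ⊕ E → Prop
  | refl (x : V ⊕ E) : Below x x
  | trans {x y z : V ⊕ E} : Below x y → Below y z → Below x z
  | first (v : V) : Below (Sum.inl p) (Sum.inl v)
  | last (v : V) : Below (Sum.inl v) (Sum.inl q)
  | first' (e : E) : Below (Sum.inr a) (Sum.inr e)
  | last' (e : E) : Below (Sum.inr e) (Sum.inr b)
  | cross (k : C × Bool) : Below (Sum.inl (cAt v₁ v₂ k)) (Sum.inl (cOpp v₁ v₂ k)) →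
      Below (Sum.inr (cOpp e₁ e₂ k)) (Sum.inr (cAt e₁ e₂ k))
  | cross' (k : C × Bool) : Below (Sum.inr (cOpp e₁ e₂ k)) (Sum.inr (cAt e₁ e₂ k)) →
      Below (Sum.inl (cAt v₁ v₂ k)) (Sum.inl (cOpp v₁ v₂ k))
  | cutL {u v x : V} : Below (Sum.inl u) (Sum.inl v) → Cut v₁ v₂ p q u v x →
      Below (Sum.inl u) (Sum.inl x)
  | cutR {u v x : V} : Below (Sum.inl u) (Sum.inl v) → Cut v₁ v₂ p q u v x →
      Below (Sum.inl x) (Sum.inl v)
  | cutL' {c d x : E} : Below (Sum.inr c) (Sum.inr d) → Cut e₁ e₂ a b c d x →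
      Below (Sum.inr c) (Sum.inr x)
  | cutR' {c d x : E} : Below (Sum.inr c) (Sum.inr d) → Cut e₁ e₂ a b c d x →
      Below (Sum.inr x) (Sum.inr d)

/-- `Has m n u v c d`: between the regions `u`, `v` of the first colour and the regions `c`, `d` of the
second colour (in clockwise order `u, c, v, d`) the diagram contains the rational tangle `m / n`. A
crossing is the tangle `1 / 1`; one more crossing between `u` and `v` (next to `c` or next to `d`) gives
`(m + n) / n`; one more crossing in series gives `m / (m + n)`; `c`, `d` may be moved outwards and `u`,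
`v` inwards. -/
inductive Has : ℕ → ℕ → V → V → E → E → Prop
  | unit (k : C × Bool) : Has 1 1 (cAt v₁ v₂ k) (cOpp v₁ v₂ k) (cOpp e₁ e₂ k) (cAt e₁ e₂ k)
  | move {m n : ℕ} {u v u' v' : V} {c d c' d' : E} : Has m n u v c d →
      Below v₁ v₂ e₁ e₂ p q a b (Sum.inl u) (Sum.inl u') →
      Below v₁ v₂ e₁ e₂ p q a b (Sum.inl v') (Sum.inl v) →
      Below v₁ v₂ e₁ e₂ p q a b (Sum.inr c') (Sum.inr c) →
      Below v₁ v₂ e₁ e₂ p q a b (Sum.inr d) (Sum.inr d') → Has m n u' v' c' d'
  | parL {m n : ℕ} {u v : V} {c e d : E} : Has 1 1 u v c e → Has m n u v e d →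
      Has (m + n) n u v c d
  | parR {m n : ℕ} {u v : V} {c e d : E} : Has m n u v c e → Has 1 1 u v e d →
      Has (m + n) n u v c d
  | serL {m n : ℕ} {u w v : V} {c d : E} : Has 1 1 u w c d → Has m n w v c d →
      Below v₁ v₂ e₁ e₂ p q a b (Sum.inl w) (Sum.inl v) → Has m (m + n) u v c d
  | serR {m n : ℕ} {u w v : V} {c d : E} : Has m n u w c d → Has 1 1 w v c d →
      Below v₁ v₂ e₁ e₂ p q a b (Sum.inl u) (Sum.inl w) → Has m (m + n) u v c d

/-- `Parallel l n c d`: between the poles `p` and `q` and the regions `c`, `d` of the other colour the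
diagram contains, in parallel, the rational tangles `m / k` for the pairs `(m, k)` in `l`, and `n`
crossings (in any order). -/
inductive Parallel : List (ℕ × ℕ) → ℕ → E → E → Prop
  | nil {c d : E} : Below v₁ v₂ e₁ e₂ p q a b (Sum.inr c) (Sum.inr d) → Parallel [] 0 c d
  | crossing {l : List (ℕ × ℕ)} {n : ℕ} {c e d : E} : Has v₁ v₂ e₁ e₂ p q a b 1 1 p q c e →
      Parallel l n e d → Parallel l (n + 1) c d
  | rational {l : List (ℕ × ℕ)} {n m k : ℕ} {c e d : E} : Has v₁ v₂ e₁ e₂ p q a b m k p q c e →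
      Parallel l n e d → Parallel ((m, k) :: l) n c d

end defs

section cut

variable {V E C : Type} {v₁ v₂ : C → V} {e₁ e₂ : C → E} {p q : V} {a b : E}
  {star : V → List (C × Bool)}
variable {X : Type*} [LinearOrder X] {f : V → Aut X} {h : E → Aut X}

theorem Cut.symm {u v x : V} (hc : Cut v₁ v₂ p q u v x) : Cut v₁ v₂ q p v u x := by
  refine ⟨hc.2.1, hc.1, fun y hy => ?_⟩
  have hy' : ReflTransGen (fun y z => Adj v₁ v₂ y z ∧ z ≠ u ∧ z ≠ v) x y := by
    induction hy with
    | refl => exact ReflTransGen.refl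
    | tail _ h ih => exact ih.tail ⟨h.1, h.2.2, h.2.1⟩
  have := hc.2.2 y hy'
  exact ⟨this.2, this.1⟩

/-- the maximum principle -/
theorem cut_le [Finite V] (S : Side v₁ v₂ e₁ e₂ p q a b star) (hr : Side.Rel v₁ v₂ e₁ e₂ f h)
    {u v x : V} (hc : Cut v₁ v₂ p q u v x) (y : X) (huv : f u y ≤ f v y) : f x y ≤ f v y := by
  by_contra hcon
  push Not at hcon
  set R : V → V → Prop := fun y z => Adj v₁ v₂ y z ∧ z ≠ u ∧ z ≠ v with hR
  obtain ⟨M, hMK, hM⟩ : ∃ M, ReflTransGen R x M ∧ ∀ z, ReflTransGen R x z → f z y ≤ f M y := by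
    have := Set.exists_max_image {z | ReflTransGen R x z} (fun z => f z y) (Set.toFinite _)
      ⟨x, ReflTransGen.refl⟩
    obtain ⟨M, h1, h2⟩ := this
    exact ⟨M, h1, h2⟩
  have hvM : f v y < f M y := lt_of_lt_of_le hcon (hM x ReflTransGen.refl)
  have key : ∀ z, ReflTransGen (fun x y => Adj v₁ v₂ x y ∧ y ≠ p) z q → ReflTransGen R x z →
      f z y = f M y → False := by
    intro z hz
    induction hz using ReflTransGen.head_induction_on with
    | refl => intro h1 _; exact (hc.2.2 q h1).2 rfl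
    | @head z w hzw _ ih =>
      intro h1 h2
      obtain ⟨h3, h4⟩ := hc.2.2 z h1
      have h5 := S.local_max hr y h3 h4 (fun k hk => ?_)
      · obtain ⟨⟨k, hk1, hk2⟩, -⟩ := hzw
        have h6 := h5 k ((S.mem z k).mpr hk1)
        rw [hk2] at h6
        have h7 : f w y = f M y := h6.trans h2
        refine ih (h1.tail ⟨⟨k, hk1, hk2⟩, ?_, ?_⟩) h7
        · rintro rfl
          rw [h7] at huv
          exact absurd huv (not_le.mpr hvM)
        · rintro rfl
          exact hvM.ne h7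
      · by_cases h6 : cOpp v₁ v₂ k = u
        · rw [h6, h2]; exact (huv.trans hvM.le)
        by_cases h7 : cOpp v₁ v₂ k = v
        · rw [h7, h2]; exact hvM.le
        rw [h2]
        exact hM _ (h1.tail ⟨⟨k, (S.mem z k).mp hk, rfl⟩, h6, h7⟩)
  exact key M (S.toSecond M (hc.2.2 M hMK).1) hMK rfl

theorem le_cut [Finite V] (S : Side v₁ v₂ e₁ e₂ p q a b star) (hr : Side.Rel v₁ v₂ e₁ e₂ f h)
    {u v x : V} (hc : Cut v₁ v₂ p q u v x) (y : X) (huv : f u y ≤ f v y) : f u y ≤ f x y :=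
  cut_le (X := Xᵒᵈ) S.symm (hr.map Aut.dual) hc.symm (OrderDual.toDual y) huv

end cut

section sound

variable {V E C : Type} {v₁ v₂ : C → V} {e₁ e₂ : C → E} {p q : V} {a b : E}
  {star : V → List (C × Bool)} {star' : E → List (C × Bool)}
variable {X : Type*} [LinearOrder X] {f : V → Aut X} {h : E → Aut X}

theorem Below.sound [Finite V] [Finite E] (S : Side v₁ v₂ e₁ e₂ p q a b star)
    (S' : Side e₁ e₂ v₁ v₂ a b p q star')
    (hr : Side.Rel v₁ v₂ e₁ e₂ f h) (hr' : Side.Rel e₁ e₂ v₁ v₂ h f) (hf : Bounds f p q)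
    (hh : Bounds h a b) {x y : V ⊕ E} (hxy : Below v₁ v₂ e₁ e₂ p q a b x y) :
    Sum.elim f h x ≤ Sum.elim f h y := by
  induction hxy with
  | refl x => exact le_rfl
  | trans _ _ ih1 ih2 => exact ih1.trans ih2
  | first v => exact hf.base.le.trans (hf.one_le v)
  | last v => exact hf.le v
  | first' e => exact hh.base.le.trans (hh.one_le e)
  | last' e => exact hh.le e
  | cross k _ ih =>
    simp only [Sum.elim_inl, Sum.elim_inr] at ih ⊢
    have h1 := hr k
    have h2 : 1 ≤ (f (cAt v₁ v₂ k))⁻¹ * f (cOpp v₁ v₂ k) := by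
      rw [le_inv_mul_iff_mul_le, mul_one]; exact ih
    rw [← h1, le_inv_mul_iff_mul_le, mul_one] at h2
    exact h2
  | cross' k _ ih =>
    simp only [Sum.elim_inl, Sum.elim_inr] at ih ⊢
    have h1 := hr k
    have h2 : 1 ≤ (h (cOpp e₁ e₂ k))⁻¹ * h (cAt e₁ e₂ k) := by
      rw [le_inv_mul_iff_mul_le, mul_one]; exact ih
    rw [h1, le_inv_mul_iff_mul_le, mul_one] at h2
    exact h2
  | cutL _ hc ih => exact fun y => le_cut S hr hc y (ih y)
  | cutR _ hc ih => exact fun y => cut_le S hr hc y (ih y)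
  | cutL' _ hc ih => exact fun y => le_cut S' hr' hc y (ih y)
  | cutR' _ hc ih => exact fun y => cut_le S' hr' hc y (ih y)

theorem Has.sound [Finite V] [Finite E] (S : Side v₁ v₂ e₁ e₂ p q a b star)
    (S' : Side e₁ e₂ v₁ v₂ a b p q star')
    (hr : Side.Rel v₁ v₂ e₁ e₂ f h) (hr' : Side.Rel e₁ e₂ v₁ v₂ h f) (hf : Bounds f p q)
    (hh : Bounds h a b) {m n : ℕ} {u v : V} {c d : E}
    (H : Has v₁ v₂ e₁ e₂ p q a b m n u v c d) : Dom m n ((f u)⁻¹ * f v) ((h c)⁻¹ * h d) := by
  induction H with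
  | unit k => exact Dom.unit (hr k).ge
  | @move m n u v u' v' c d c' d' _ h1 h2 h3 h4 ih =>
    have k1 : f u ≤ f u' := h1.sound S S' hr hr' hf hh
    have k2 : f v' ≤ f v := h2.sound S S' hr hr' hf hh
    have k3 : h c' ≤ h c := h3.sound S S' hr hr' hf hh
    have k4 : h d ≤ h d' := h4.sound S S' hr hr' hf hh
    exact ih.mono (mul_le_mul' (inv_le_inv_iff.mpr k1) k2) (mul_le_mul' (inv_le_inv_iff.mpr k3) k4)
  | @parL m n u v c e d _ _ ih1 ih2 =>
    have h1 := (ih1.inv_unit rfl).2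
    refine Dom.parL ih2 ?_
    calc (f u)⁻¹ * f v * ((h e)⁻¹ * h d) ≤ ((h c)⁻¹ * h e) * ((h e)⁻¹ * h d) :=
          mul_le_mul_left h1 _
      _ = (h c)⁻¹ * h d := by group
  | @parR m n u v c e d _ _ ih1 ih2 =>
    have h1 := (ih2.inv_unit rfl).2
    refine Dom.parR ih1 ?_
    calc ((h c)⁻¹ * h e) * ((f u)⁻¹ * f v) ≤ ((h c)⁻¹ * h e) * ((h e)⁻¹ * h d) :=
          mul_le_mul_right h1 _
      _ = (h c)⁻¹ * h d := by group
  | @serL m n u w v c d _ _ h1 ih1 ih2 =>
    have k1 : f w ≤ f v := h1.sound S S' hr hr' hf hh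
    have h2 := (ih1.inv_unit rfl).2
    refine Dom.serR (v := (f w)⁻¹ * f v) ?_ ih2 ?_
    · rw [le_inv_mul_iff_mul_le, mul_one]; exact k1
    · calc (f u)⁻¹ * f v = ((f u)⁻¹ * f w) * ((f w)⁻¹ * f v) := by group
        _ ≤ _ := mul_le_mul_left h2 _
  | @serR m n u w v c d _ _ h1 ih1 ih2 =>
    have k1 : f u ≤ f w := h1.sound S S' hr hr' hf hh
    have h2 := (ih2.inv_unit rfl).2
    refine Dom.serL (v := (f u)⁻¹ * f w) ?_ ih1 ?_
    · rw [le_inv_mul_iff_mul_le, mul_one]; exact k1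
    · calc (f u)⁻¹ * f v = ((f u)⁻¹ * f w) * ((f w)⁻¹ * f v) := by group
        _ ≤ _ := mul_le_mul_right h2 _

theorem prod_conj {P : Type*} [Group P] (g : P) : ∀ L : List (ℚ × P),
    ((L.map fun x => (x.1, g * x.2 * g⁻¹)).map Prod.snd).prod = g * (L.map Prod.snd).prod * g⁻¹
  | [] => by simp
  | x :: L => by
    have := prod_conj g L
    simp only [List.map_cons, List.prod_cons] at this ⊢
    rw [this]; group

theorem Parallel.sound [Finite V] [Finite E] (S : Side v₁ v₂ e₁ e₂ p q a b star)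
    (S' : Side e₁ e₂ v₁ v₂ a b p q star')
    (hr : Side.Rel v₁ v₂ e₁ e₂ f h) (hr' : Side.Rel e₁ e₂ v₁ v₂ h f) (hf : Bounds f p q)
    (hh : Bounds h a b) {l : List (ℕ × ℕ)} {n : ℕ} {c d : E}
    (H : Parallel v₁ v₂ e₁ e₂ p q a b l n c d) :
    ∃ L : List (ℚ × Aut X), L.map Prod.fst = l.map (fun x => (x.1 : ℚ) / x.2) ∧
      (∀ x ∈ L, DomQ x.1 (f q) x.2) ∧ (L.map Prod.snd).prod * f q ^ n ≤ (h c)⁻¹ * h d := by
  have hg : 1 < f q := hf.pos q S.ne.symm
  have hpq : (f p)⁻¹ * f q = f q := by rw [hf.base, inv_one, one_mul]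
  induction H with
  | @nil c d h1 =>
    have k1 : h c ≤ h d := h1.sound S S' hr hr' hf hh
    refine ⟨[], rfl, by simp, ?_⟩
    rw [List.map_nil, List.prod_nil, pow_zero, one_mul, le_inv_mul_iff_mul_le, mul_one]
    exact k1
  | @crossing l n c e d h1 _ ih =>
    obtain ⟨L, k1, k2, k3⟩ := ih
    have k4 := h1.sound S S' hr hr' hf hh
    rw [hpq] at k4
    have k5 := (k4.inv_unit rfl).2
    refine ⟨L.map fun x => (x.1, f q * x.2 * (f q)⁻¹), ?_, ?_, ?_⟩
    · rw [List.map_map, ← k1]; rfl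
    · intro x hx
      obtain ⟨y, hy, rfl⟩ := List.mem_map.mp hx
      obtain ⟨l1, l2, l3⟩ := k2 y hy
      refine ⟨l1, one_le_conj _ l2, fun h0 => ?_⟩
      have := (l3 h0).conj (f q)
      rwa [mul_inv_cancel_right] at this
    · rw [prod_conj]
      calc f q * (L.map Prod.snd).prod * (f q)⁻¹ * f q ^ (n + 1)
          = f q * ((L.map Prod.snd).prod * f q ^ n) := by
            rw [pow_succ' (f q) n]; group
        _ ≤ ((h c)⁻¹ * h e) * ((h e)⁻¹ * h d) := mul_le_mul' k5 k3
        _ = (h c)⁻¹ * h d := by group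
  | @rational l n m k c e d h1 _ ih =>
    obtain ⟨L, k1, k2, k3⟩ := ih
    have k4 := h1.sound S S' hr hr' hf hh
    rw [hpq] at k4
    refine ⟨((m : ℚ) / k, (h c)⁻¹ * h e) :: L, ?_, ?_, ?_⟩
    · rw [List.map_cons, List.map_cons, k1]
    · intro x hx
      rcases List.mem_cons.mp hx with rfl | hx
      · exact k4.toQ hg.le
      · exact k2 x hx
    · rw [List.map_cons, List.prod_cons]
      calc ((h c)⁻¹ * h e) * (L.map Prod.snd).prod * f q ^ n
          = ((h c)⁻¹ * h e) * ((L.map Prod.snd).prod * f q ^ n) := by rw [mul_assoc]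
        _ ≤ ((h c)⁻¹ * h e) * ((h e)⁻¹ * h d) := mul_le_mul_right k3 _
        _ = (h c)⁻¹ * h d := by group

end sound

section close

variable {P : Type*} [Group P] [PartialOrder P] [MulLeftMono P] [MulRightMono P]

theorem Dom.peel {t : ℕ} {g : P} : ∀ (n r₀ : ℕ) (Y : P), 1 ≤ r₀ →
    Dom t (r₀ + n * t) (Y * g ^ n) g → Dom t r₀ Y g
  | 0, r₀, Y, _, h => by simpa using h
  | n + 1, r₀, Y, hr, h => by
    obtain ⟨v, hv, h1, h2⟩ := h.inv_serL (q₁ := r₀ + n * t) (by ring) (by omega)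
    refine Dom.peel n r₀ Y hr (h1.mono ?_ le_rfl)
    rw [pow_succ, ← mul_assoc] at h2
    exact le_of_le_mul h2

theorem one_le_list {L : List (ℚ × P)} {g : P} (hL : ∀ x ∈ L, DomQ x.1 g x.2) :
    ∀ x ∈ L.map Prod.snd, (1 : P) ≤ x := by
  intro x hx
  obtain ⟨y, hy, rfl⟩ := List.mem_map.mp hx
  exact (hL y hy).2.1

theorem one_lt_prod_of_sum {L : List (ℚ × P)} {g : P} (hg : 1 < g) (hL : ∀ x ∈ L, DomQ x.1 g x.2)
    (hs : 0 < (L.map Prod.fst).sum) : 1 < (L.map Prod.snd).prod := by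
  have hx : ∃ x ∈ L, 0 < x.1 := by
    by_contra hcon
    push Not at hcon
    refine absurd hs (not_lt.mpr (sum_nonpos _ ?_))
    intro y hy
    obtain ⟨x, hx, rfl⟩ := List.mem_map.mp hy
    exact hcon x hx
  obtain ⟨x, hx, hx0⟩ := hx
  obtain ⟨a, m, h6, -⟩ := (hL x hx).dom hx0
  refine lt_of_lt_of_le (h6.one_lt hg) ?_
  have := prod_le_of_sublist (List.singleton_sublist.mpr (List.mem_map_of_mem (f := Prod.snd) hx))
    (one_le_list hL)
  simpa using this

/-- The final contradiction for a union of two tangles. -/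
theorem close_false {L : List (ℚ × P)} {g A : P} {n t r : ℕ} (hg : 1 < g)
    (hL : ∀ x ∈ L, DomQ x.1 g x.2) (hA : (L.map Prod.snd).prod * g ^ n ≤ A) (hT : Dom t r A g)
    (hr' : r ≤ (n + 1) * t)
    (h1 : 1 < ((((n : ℚ) + 1) - r / t) :: L.map Prod.fst).sum)
    (hF : ¬ Foliated ((((n : ℚ) + 1) - r / t) :: L.map Prod.fst)) : False := by
  set Y := (L.map Prod.snd).prod with hY
  obtain ⟨ht, hr1⟩ := hT.pos
  have t0 : (0 : ℚ) < t := by exact_mod_cast ht
  have h1L := one_le_list hL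
  have hY1 : 1 ≤ Y := by
    have := prod_le_of_sublist (List.nil_sublist (L.map Prod.snd)) h1L
    rwa [List.prod_nil] at this
  have hT' : Dom t r (Y * g ^ n) g := hT.mono hA le_rfl
  rcases Nat.lt_or_ge (n * t) r with hr | hr
  swap
  · -- `r / t ≤ n`
    set n' := (r - 1) / t with hn'
    have e1 := Nat.div_add_mod (r - 1) t
    have e2 := Nat.mod_lt (r - 1) (show 0 < t by omega)
    rw [← hn'] at e1
    obtain ⟨r₀, hr₀⟩ : ∃ r₀, r₀ = (r - 1) % t := ⟨_, rfl⟩
    rw [← hr₀] at e1 e2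
    have e3 : r = (r₀ + 1) + n' * t := by
      have : t * n' + r₀ + 1 = r := by omega
      rw [← this]; ring
    have hn : n' < n := by
      by_contra hcon
      push Not at hcon
      have : n * t ≤ n' * t := Nat.mul_le_mul_right t hcon
      omega
    obtain ⟨j, rfl⟩ := Nat.exists_eq_add_of_lt hn
    have h2 : Dom t (r₀ + 1) (Y * g ^ (j + 1)) g := by
      refine Dom.peel n' (r₀ + 1) _ (by omega) ?_
      rw [← e3, mul_assoc, ← pow_add, show j + 1 + n' = n' + j + 1 by ring]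
      exact hT'
    have h3 : 1 < Y * g ^ (j + 1) := by
      refine lt_of_lt_of_le ?_ (le_mul_of_one_le_left' hY1)
      rw [pow_succ]
      exact lt_of_lt_of_le hg (le_mul_of_one_le_left' (one_le_pow_of_one_le' hg.le j))
    have h4 := h2.le_of_le h3.le (by omega)
    have h5 : Y * g ^ j ≤ 1 := by
      rw [pow_succ, ← mul_assoc] at h4
      exact le_of_le_mul (x := g) (by rwa [one_mul])
    have hYle : Y ≤ 1 := (le_mul_of_one_le_right' (one_le_pow_of_one_le' hg.le j)).trans h5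
    have hs : (L.map Prod.fst).sum ≤ 0 := by
      by_contra hcon
      push Not at hcon
      exact absurd hYle (not_le_of_gt (one_lt_prod_of_sum hg hL hcon))
    have hj : j = 0 := by
      rcases Nat.eq_zero_or_pos j with h | h
      · exact h
      · obtain ⟨i, rfl⟩ := Nat.exists_eq_add_of_le' h
        have : g ≤ 1 := by
          refine le_trans ?_ ((le_mul_of_one_le_left' hY1).trans h5)
          rw [pow_succ]
          exact le_mul_of_one_le_left' (one_le_pow_of_one_le' hg.le i)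
        exact absurd this (not_le_of_gt hg)
    subst hj
    rw [List.sum_cons] at h1
    have h6 : r₀ + 1 < t := by
      have h7 : (r : ℚ) / t < ((n' + 0 + 1 : ℕ) : ℚ) := by linarith
      rw [div_lt_iff₀ t0] at h7
      have h8 : r < (n' + 0 + 1) * t := by exact_mod_cast h7
      rw [e3] at h8
      nlinarith
    have h7 := h2.lt_of_lt h3 h6
    rw [zero_add, pow_one] at h7
    have h8 : Y < 1 := by
      refine lt_of_mul_lt_mul_right' (a := g) ?_
      rwa [one_mul]
    exact absurd h8 (not_lt_of_ge hY1)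
  obtain ⟨r₀, rfl⟩ := Nat.exists_eq_add_of_lt hr
  have h2 : Dom t (r₀ + 1) Y g := by
    refine Dom.peel n (r₀ + 1) Y (by omega) ?_
    have e : n * t + r₀ + 1 = r₀ + 1 + n * t := by ring
    rw [← e]
    exact hT'
  have hle : r₀ + 1 ≤ t := by nlinarith
  rcases hle.eq_or_lt with h3 | h3
  · obtain ⟨h4, h5⟩ := h2.inv_unit h3.symm
    have e : ((n : ℚ) + 1) - ((n * t + r₀ + 1 : ℕ) : ℚ) / t = 0 := by
      have : n * t + r₀ + 1 = (n + 1) * t := by rw [add_assoc, h3]; ring
      rw [this]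
      push_cast
      rw [mul_div_assoc, div_self t0.ne', mul_one, sub_self]
    rw [e] at h1 hF
    refine product_false (L := (0, 1) :: L) hg ?_ (by simpa using h1) (by simpa using hF) ?_
    · intro x hx
      rcases List.mem_cons.mp hx with rfl | hx
      · exact ⟨le_rfl, le_rfl, fun h => absurd h (lt_irrefl _)⟩
      · exact hL x hx
    · rw [List.map_cons, List.prod_cons, one_mul]
      exact h5
  · obtain ⟨t₁, ht₁⟩ := Nat.exists_eq_add_of_lt h3
    obtain ⟨A', h4, h5⟩ := h2.inv_parR (p₁ := t₁ + 1) (by omega) (by omega)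
    have e : ((n : ℚ) + 1) - ((n * t + r₀ + 1 : ℕ) : ℚ) / t =
        ((t₁ + 1 : ℕ) : ℚ) / ((t₁ + 1 + (r₀ + 1) : ℕ) : ℚ) := by
      have e1 : t₁ + 1 + (r₀ + 1) = t := by omega
      rw [e1, eq_div_iff t0.ne', sub_mul, div_mul_cancel₀ _ t0.ne']
      have e2 : (t : ℚ) = r₀ + 1 + t₁ + 1 := by exact_mod_cast ht₁
      push_cast
      linarith
    have hY2 : 1 < Y := by
      refine one_lt_prod_of_sum hg hL ?_
      rw [List.sum_cons] at h1
      have h6 : (0 : ℚ) < ((n * t + r₀ + 1 : ℕ) : ℚ) / t - n := by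
        rw [sub_pos, lt_div_iff₀ t0]
        push_cast
        have : (0 : ℚ) ≤ r₀ := by positivity
        linarith
      linarith
    have h6 : Dom (t₁ + 1) (t₁ + 1 + (r₀ + 1)) (A' * Y) A' := Dom.serR hY1 h4 le_rfl
    have hA' : 1 ≤ A' := h4.one_le hY1
    have hg' : 1 < A' * Y := lt_of_lt_of_le hY2 (le_mul_of_one_le_left' hA')
    rw [e] at h1 hF
    refine product_false (L := (((t₁ + 1 : ℕ) : ℚ) / ((t₁ + 1 + (r₀ + 1) : ℕ) : ℚ), A') :: L)
      hg' ?_ h1 hF ?_
    · intro x hx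
      rcases List.mem_cons.mp hx with rfl | hx
      · exact h6.toQ hg'.le
      · exact (hL x hx).mono h5
    · rw [List.map_cons, List.prod_cons]

end close

end Pool.Agent.Q184.LS
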