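import Mathlib

set_option autoImplicit false
set_option linter.unusedSectionVars false

/-!
# The criterion of Jankins, Neumann and Naimi
-/

namespace Pool.Agent.Q184.LS

/-- The criterion of Jankins, Neumann and Naimi: `M(-1; L)` has a horizontal foliation (for at least
three positive invariants). -/
def Foliated (L : List ℚ) : Prop :=
  ∃ (M a : ℕ) (x y : ℚ) (rest : List ℚ), 0 < a ∧ a < M ∧ L.Perm (x :: y :: rest) ∧
    x < (a : ℚ) / M ∧ y < ((M : ℚ) - a) / M ∧ ∀ z ∈ rest, z < 1 / (M : ℚ)

theorem exists_farey_aux {x y : ℚ} {D : ℕ} (hD : 1 ≤ (D : ℚ) * (y - x)) : ∀ (k a m a' m' : ℕ),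
    1 ≤ m → 1 ≤ m' → a' * m = a * m' + 1 → (a : ℚ) / m ≤ x → y ≤ (a' : ℚ) / m' →
    D + 2 ≤ k + (m + m') →
    ∃ a m a' m' : ℕ, 1 ≤ m ∧ 1 ≤ m' ∧ a' * m = a * m' + 1 ∧ (a : ℚ) / m ≤ x ∧
      y ≤ (a' : ℚ) / m' ∧ x < ((a : ℚ) + a') / (m + m') ∧ ((a : ℚ) + a') / (m + m') < y := by
  intro k
  induction k with
  | zero =>
    intro a m a' m' hm hm' hF h1 h2 hk
    exfalso
    have m0 : (0 : ℚ) < m := by exact_mod_cast hm
    have m0' : (0 : ℚ) < m' := by exact_mod_cast hm'
    have hxy : 0 < y - x := by
      by_contra hcon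
      push Not at hcon
      have : (D : ℚ) * (y - x) ≤ 0 := mul_nonpos_of_nonneg_of_nonpos (by positivity) hcon
      linarith
    have hF' : (a' : ℚ) * m = a * m' + 1 := by exact_mod_cast hF
    have e1 : (a' : ℚ) / m' - a / m = 1 / (m * m') := by
      rw [div_sub_div _ _ m0'.ne' m0.ne']
      congr 1
      · linarith
      · ring
    have h3 : (m * m' : ℚ) * (y - x) ≤ 1 := by
      have : y - x ≤ 1 / (m * m') := by rw [← e1]; linarith
      rwa [le_div_iff₀ (by positivity), mul_comm] at this
    have h4 : (m * m' : ℚ) ≤ D := le_of_mul_le_mul_right (h3.trans hD) hxy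
    have h5 : m * m' ≤ D := by exact_mod_cast h4
    nlinarith
  | succ k ih =>
    intro a m a' m' hm hm' hF h1 h2 hk
    by_cases h3 : ((a : ℚ) + a') / (m + m') ≤ x
    · refine ih (a + a') (m + m') a' m' (by omega) hm' (by nlinarith) ?_ h2 (by omega)
      push_cast
      exact h3
    · by_cases h4 : y ≤ ((a : ℚ) + a') / (m + m')
      · refine ih a m (a + a') (m + m') hm (by omega) (by nlinarith) h1 ?_ (by omega)
        push_cast
        exact h4
      · push Not at h3 h4
        exact ⟨a, m, a', m', hm, hm', hF, h1, h2, h3, h4⟩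

theorem exists_farey (x y : ℚ) (hx : 0 ≤ x) (hy : y ≤ 1) (hxy : x < y) :
    ∃ a m a' m' : ℕ, 1 ≤ m ∧ 1 ≤ m' ∧ a' * m = a * m' + 1 ∧ (a : ℚ) / m ≤ x ∧
      y ≤ (a' : ℚ) / m' ∧ x < ((a : ℚ) + a') / (m + m') ∧ ((a : ℚ) + a') / (m + m') < y := by
  obtain ⟨D, hD⟩ := exists_nat_ge (1 / (y - x))
  have h1 : 1 ≤ (D : ℚ) * (y - x) := by
    rwa [div_le_iff₀ (by linarith)] at hD
  refine exists_farey_aux h1 D 0 1 1 1 le_rfl le_rfl rfl ?_ ?_ (by omega)
  · simpa using hx
  · simpa using hy

theorem sum_nonpos : ∀ l : List ℚ, (∀ x ∈ l, x ≤ 0) → l.sum ≤ 0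
  | [], _ => by simp
  | x :: l, h => by
    rw [List.sum_cons]
    have h1 := h x (by simp)
    have h2 := sum_nonpos l fun y hy => h y (by simp [hy])
    linarith

theorem jnn {α : Type*} (f : α → ℚ) (L : List α) (h0 : ∀ x ∈ L, 0 ≤ f x)
    (h1 : 1 < (L.map f).sum) (hF : ¬ Foliated (L.map f)) :
    (∃ x, List.Subperm [x] L ∧ 1 < f x) ∨ (∃ x y, List.Subperm [x, y] L ∧ 1 < f x + f y) ∨
      ∃ x y z, List.Subperm [x, y, z] L ∧ 0 < f z ∧ 0 < f x ∧ 0 < f y ∧ (1 ≤ f x + f y ∨
        ∃ a m b n : ℕ, 1 ≤ a ∧ 1 ≤ b ∧ a * n + b * m + 1 = m * n ∧ (a : ℚ) / m ≤ f x ∧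
          (b : ℚ) / n ≤ f y ∧ 1 / ((m : ℚ) + n) ≤ f z) := by
  classical
  set r : α → α → Prop := fun a b => f b ≤ f a with hr
  have : Std.Total r := ⟨fun a b => le_total _ _⟩
  have : IsTrans α r := ⟨fun a b c h1 h2 => le_trans h2 h1⟩
  have hp := List.perm_insertionSort r L
  have hs := List.pairwise_insertionSort r L
  rcases hc : List.insertionSort r L with _ | ⟨x, _ | ⟨y, _ | ⟨z, rest⟩⟩⟩
  · rw [hc] at hp
    rw [hp.symm.eq_nil] at h1
    norm_num at h1
  · rw [hc] at hp
    left
    refine ⟨x, hp.subperm, ?_⟩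
    have := (hp.map f).sum_eq
    rw [← this] at h1
    simpa using h1
  · rw [hc] at hp
    right; left
    refine ⟨x, y, hp.subperm, ?_⟩
    have := (hp.map f).sum_eq
    rw [← this] at h1
    simpa using h1
  · rw [hc] at hp hs
    have hsum := (hp.map f).sum_eq
    rw [← hsum] at h1
    simp only [List.map_cons, List.sum_cons] at h1
    rw [List.pairwise_cons, List.pairwise_cons, List.pairwise_cons] at hs
    obtain ⟨hx, hy, hz, -⟩ := hs
    have hyx : f y ≤ f x := hx y (by simp)
    have hzy : f z ≤ f y := hy z (by simp)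
    have hwz : ∀ w ∈ rest, f w ≤ f z := hz
    by_cases h2 : 1 < f x + f y
    · right; left
      refine ⟨x, y, ?_, h2⟩
      refine List.Subperm.trans ?_ hp.subperm
      exact (List.Sublist.subperm (by simp))
    push Not at h2
    have z0 : 0 ≤ f z := h0 z (hp.subset (by simp))
    have hz0 : 0 < f z := by
      refine lt_of_le_of_ne z0 fun hcon => ?_
      have hrest : (rest.map f).sum ≤ 0 := by
        refine sum_nonpos _ ?_
        intro w hw
        obtain ⟨u, hu, rfl⟩ := List.mem_map.mp hw
        rw [hcon]; exact hwz u hu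
      linarith
    right; right
    refine ⟨x, y, z, ?_, hz0, by linarith, by linarith, ?_⟩
    · refine List.Subperm.trans ?_ hp.subperm
      exact (List.Sublist.subperm (by simp))
    rcases h2.lt_or_eq with h2 | h2
    swap
    · left; exact h2.ge
    right
    obtain ⟨a, m, a', m', hm, hm', hFar, k1, k2, k3, k4⟩ := exists_farey (f x) (1 - f y)
      (by linarith) (by linarith) (by linarith)
    have m0 : (0 : ℚ) < m := by exact_mod_cast hm
    have m0' : (0 : ℚ) < m' := by exact_mod_cast hm'
    have hFq : (a' : ℚ) * m = a * m' + 1 := by exact_mod_cast hFar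
    have hlt : a + a' < m + m' := by
      have : ((a : ℚ) + a') / (m + m') < 1 := by linarith
      rw [div_lt_one (by positivity)] at this
      exact_mod_cast this
    have ha' : 1 ≤ a' := by
      rcases Nat.eq_zero_or_pos a' with h | h
      · rw [h] at hFar; omega
      · exact h
    have hz1 : 1 / ((m : ℚ) + m') ≤ f z := by
      by_contra hcon
      push Not at hcon
      refine hF ⟨m + m', a + a', f x, f y, (z :: rest).map f, by omega, hlt, ?_, ?_, ?_, ?_⟩
      · have := (hp.map f).symm
        simpa using this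
      · push_cast; exact k3
      · push_cast
        have : ((m : ℚ) + m' - (a + a')) / (m + m') = 1 - ((a : ℚ) + a') / (m + m') := by
          rw [sub_div, div_self (by positivity)]
        rw [this]; linarith
      · intro w hw
        rw [List.map_cons, List.mem_cons] at hw
        push_cast
        rcases hw with rfl | hw
        · exact hcon
        · obtain ⟨u, hu, rfl⟩ := List.mem_map.mp hw
          exact lt_of_le_of_lt (hwz u hu) hcon
    have ha : 1 ≤ a := by
      rcases Nat.eq_zero_or_pos a with h | h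
      · exfalso
        subst h
        have e : a' * m = 1 := by omega
        have ha1 : a' = 1 := Nat.eq_one_of_mul_eq_one_right e
        have hm1 : m = 1 := Nat.eq_one_of_mul_eq_one_left e
        subst ha1 hm1
        norm_num at k2 k3 hz1
        rcases hm'.eq_or_lt with h | h
        · subst h
          norm_num at k2 k3 hz1
          linarith
        · have h3 : (2 : ℚ) ≤ m' := by exact_mod_cast h
          have h4 : (m' : ℚ)⁻¹ ≤ 1 / 2 := by
            rw [inv_eq_one_div]
            exact one_div_le_one_div_of_le (by norm_num) h3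
          have h5 : (1 + (m' : ℚ))⁻¹ ≤ 1 / 3 := by
            rw [inv_eq_one_div]
            exact one_div_le_one_div_of_le (by norm_num) (by linarith)
          linarith
      · exact h
    have hb : a' < m' := by
      by_contra hcon
      push Not at hcon
      have h3 : a < m := by omega
      have h4 : m' = 1 := by nlinarith
      subst h4
      have h5 : a' * m ≤ m := by omega
      have h6 : a' = 1 := by nlinarith
      subst h6
      have h7 : m = a + 1 := by omega
      subst h7
      push_cast at k4 hz1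
      have h8 : ((a : ℚ) + 1) / (a + 1 + 1) = 1 - 1 / (a + 1 + 1) := by
        field_simp
        ring
      rw [h8] at k4
      linarith
    refine ⟨a, m, m' - a', m', ha, by omega, ?_, k1, ?_, hz1⟩
    · obtain ⟨b, rfl⟩ := Nat.exists_eq_add_of_lt hb
      have : a' + b + 1 - a' = b + 1 := by omega
      rw [this]
      nlinarith
    · rw [Nat.cast_sub hb.le, sub_div, div_self m0'.ne']
      linarith

end Pool.Agent.Q184.LS
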