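import Pool.Agent.Q184.LS.Core

set_option autoImplicit false
set_option linter.unusedSectionVars false

/-!
# Contradictions for one, two and three summands
-/

namespace Pool.Agent.Q184.LS

open Pool.Agent.Y479.LS

variable {P : Type*} [Group P] [PartialOrder P] [MulLeftMono P] [MulRightMono P]

namespace Dom

theorem coprime {p q : ℕ} {g A : P} (h : Dom p q g A) : p.Coprime q := by
  induction h with
  | unit _ => exact Nat.coprime_one_right 1
  | parL _ _ ih => exact (Nat.coprime_add_self_left).mpr ih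
  | parR _ _ ih => exact (Nat.coprime_add_self_left).mpr ih
  | serL _ _ _ ih => exact (Nat.coprime_self_add_right).mpr ih
  | serR _ _ _ ih => exact (Nat.coprime_self_add_right).mpr ih

theorem of_one {A : P} (hA : 1 ≤ A) : ∀ (n p q : ℕ), p + q ≤ n → p.Coprime q → 1 ≤ p → 1 ≤ q →
    Dom p q (1 : P) A := by
  intro n
  induction n with
  | zero => intro p q h _ _ _; omega
  | succ n ih =>
    intro p q h hc hp hq
    rcases lt_trichotomy p q with h1 | h1 | h1
    · obtain ⟨k, rfl⟩ := Nat.exists_eq_add_of_lt h1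
      have hc' : p.Coprime (k + 1) := by
        rw [add_assoc] at hc
        exact (Nat.coprime_self_add_right).mp hc
      have := ih p (k + 1) (by omega) hc' hp (by omega)
      rw [add_assoc]
      exact serL le_rfl this (by rw [one_mul]; exact hA)
    · subst h1
      have : p = 1 := by simpa using hc
      subst this
      exact unit hA
    · obtain ⟨k, rfl⟩ := Nat.exists_eq_add_of_lt h1
      have e : q + k + 1 = k + 1 + q := by ring
      have hc' : (k + 1).Coprime q := by
        rw [e] at hc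
        exact (Nat.coprime_add_self_left).mp hc
      have := ih (k + 1) q (by omega) hc' (by omega) hq
      rw [e]
      exact parL this (by rw [one_mul])

/-- the voltage is at most the current if the fraction is at least one -/
theorem le_of_le {p q : ℕ} {g A : P} (h : Dom p q g A) (hg : 1 ≤ g) (hpq : q ≤ p) : g ≤ A := by
  rcases hpq.eq_or_lt with h1 | h1
  · exact (h.inv_unit h1.symm).2
  · obtain ⟨k, rfl⟩ := Nat.exists_eq_add_of_lt h1
    obtain ⟨A', h2, h3 | h3⟩ := h.inv_par (p₁ := k + 1) (by ring) (by omega)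
    · exact (le_mul_of_one_le_right' (h2.one_le hg)).trans h3
    · exact (le_mul_of_one_le_left' (h2.one_le hg)).trans h3

theorem lt_of_lt {p q : ℕ} {g A : P} (h : Dom p q g A) (hg : 1 < g) (hpq : q < p) : g < A := by
  obtain ⟨k, rfl⟩ := Nat.exists_eq_add_of_lt hpq
  obtain ⟨A', h2, h3 | h3⟩ := h.inv_par (p₁ := k + 1) (by ring) (by omega)
  · exact lt_of_lt_of_le (lt_mul_of_one_lt_right' _ (h2.one_lt hg)) h3
  · exact lt_of_lt_of_le (lt_mul_of_one_lt_left' _ (h2.one_lt hg)) h3

/-- a larger fraction is a stronger bound -/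
theorem frac_mono : ∀ (n p q p' q' : ℕ) (g A : P), p + q + p' + q' ≤ n → Dom p q g A → 1 ≤ g →
    p'.Coprime q' → 1 ≤ p' → 1 ≤ q' → p' * q ≤ p * q' → Dom p' q' g A := by
  intro n
  induction n with
  | zero => intro p q p' q' g A h _ _ _ _ _ _; omega
  | succ n ih =>
    intro p q p' q' g A hn h hg hc hp' hq' hle
    obtain ⟨hp, hq⟩ := h.pos
    rcases lt_trichotomy p' q' with h1 | h1 | h1
    · obtain ⟨k, rfl⟩ := Nat.exists_eq_add_of_lt h1
      have hc' : p'.Coprime (k + 1) := by
        rw [add_assoc] at hc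
        exact (Nat.coprime_self_add_right).mp hc
      rcases Nat.lt_or_ge p q with h2 | h2
      · obtain ⟨j, rfl⟩ := Nat.exists_eq_add_of_lt h2
        obtain ⟨v, hv, h3, h4⟩ := h.inv_ser (q₁ := j + 1) (by ring) (by omega)
        have := ih p (j + 1) p' (k + 1) v A (by omega) h3 hv hc' hp' (by omega) (by nlinarith)
        rw [add_assoc]
        rcases h4 with h4 | h4
        · exact serL hv this h4
        · exact serR hv this h4
      · have h3 := h.le_of_le hg h2
        have := of_one (h.one_le hg) (p' + (k + 1)) p' (k + 1) le_rfl hc' hp' (by omega)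
        rw [add_assoc]
        exact serL le_rfl this (by rw [one_mul]; exact h3)
    · subst h1
      have : p' = 1 := by simpa using hc
      subst this
      exact unit (h.le_of_le hg (by omega))
    · obtain ⟨k, rfl⟩ := Nat.exists_eq_add_of_lt h1
      have e : q' + k + 1 = k + 1 + q' := by ring
      have hc' : (k + 1).Coprime q' := by
        rw [e] at hc
        exact (Nat.coprime_add_self_left).mp hc
      have h2 : q < p := by
        by_contra hcon
        push Not at hcon
        nlinarith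
      obtain ⟨j, rfl⟩ := Nat.exists_eq_add_of_lt h2
      obtain ⟨A', h3, h4⟩ := h.inv_par (p₁ := j + 1) (by ring) (by omega)
      have := ih (j + 1) q (k + 1) q' g A' (by omega) h3 hg hc' (by omega) hq' (by nlinarith)
      rw [e]
      rcases h4 with h4 | h4
      · exact parL this h4
      · exact parR this h4

/-- the parallel unit may be moved to the other side -/
theorem inv_parL {p q p₁ : ℕ} {g A : P} (h : Dom p q g A) (e : p = p₁ + q) (hp : 1 ≤ p₁) :
    ∃ A', Dom p₁ q g A' ∧ g * A' ≤ A := by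
  obtain ⟨A', h1, h2 | h2⟩ := h.inv_par e hp
  · exact ⟨A', h1, h2⟩
  · refine ⟨g⁻¹ * A' * g, ?_, ?_⟩
    · have := h1.conj g⁻¹
      rwa [inv_inv, inv_mul_cancel, one_mul] at this
    · rwa [mul_assoc g⁻¹, mul_inv_cancel_left]

theorem inv_parR {p q p₁ : ℕ} {g A : P} (h : Dom p q g A) (e : p = p₁ + q) (hp : 1 ≤ p₁) :
    ∃ A', Dom p₁ q g A' ∧ A' * g ≤ A := by
  obtain ⟨A', h1, h2 | h2⟩ := h.inv_par e hp
  · refine ⟨g * A' * g⁻¹, ?_, ?_⟩
    · have := h1.conj g
      rwa [mul_inv_cancel_right] at this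
    · rwa [inv_mul_cancel_right]
  · exact ⟨A', h1, h2⟩

end Dom

/-- Two mutual bounds with fractions of product at least one. -/
theorem mut_false : ∀ (n p q r s : ℕ) (A B u v : P), p + q + r + s ≤ n → q * r ≤ p * s →
    Dom s r v A → Dom p q u B → B ≤ v → A ≤ u → 1 < A → 1 < B →
    (q * r < p * s ∨ B < v ∨ A < u) → False := by
  intro n
  induction n with
  | zero =>
    intro p q r s A B u v h1 _ h3 _ _ _ _ _ _
    have := h3.pos
    omega
  | succ n ih =>
    intro p q r s A B u v hn hF hA hB hBv hAu hA1 hB1 hstr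
    obtain ⟨hs1, hr1⟩ := hA.pos
    obtain ⟨hp1, hq1⟩ := hB.pos
    have hv1 : 1 < v := lt_of_lt_of_le hB1 hBv
    have hu1 : 1 < u := lt_of_lt_of_le hA1 hAu
    rcases Nat.lt_or_ge s r with hsr | hsr
    · -- `p > q`
      have hqp : q < p := by
        by_contra hcon
        push Not at hcon
        nlinarith
      obtain ⟨p₁, rfl⟩ := Nat.exists_eq_add_of_lt hqp
      obtain ⟨r₁, rfl⟩ := Nat.exists_eq_add_of_lt hsr
      obtain ⟨B', h1, h2⟩ := hB.inv_parR (p₁ := p₁ + 1) (by ring) (by omega)
      obtain ⟨w, hw, h3, h4⟩ := hA.inv_serL (q₁ := r₁ + 1) (by ring) (by omega)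
      have c1 : B' * A ≤ B' * u := mul_le_mul_right hAu _
      refine ih (p₁ + 1) q (r₁ + 1) s A B' u w (by omega) (by nlinarith) h3 h1 ?_ hAu hA1
        (h1.one_lt hu1) ?_
      · exact le_of_le_mul (c1.trans (h2.trans (hBv.trans h4)))
      · rcases hstr with h | h | h
        · left; nlinarith
        · right; left
          exact lt_of_mul_lt_mul_right' (lt_of_le_of_lt c1 (lt_of_le_of_lt h2 (lt_of_lt_of_le h h4)))
        · exact Or.inr (Or.inr h)
    · rcases Nat.lt_or_ge p q with hpq | hpq
      · -- `s > r`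
        have hrs : r < s := by
          by_contra hcon
          push Not at hcon
          nlinarith
        obtain ⟨q₁, rfl⟩ := Nat.exists_eq_add_of_lt hpq
        obtain ⟨s₁, rfl⟩ := Nat.exists_eq_add_of_lt hrs
        obtain ⟨A', h1, h2⟩ := hA.inv_parR (p₁ := s₁ + 1) (by ring) (by omega)
        obtain ⟨w, hw, h3, h4⟩ := hB.inv_serL (q₁ := q₁ + 1) (by ring) (by omega)
        have c1 : A' * B ≤ A' * v := mul_le_mul_right hBv _
        refine ih p (q₁ + 1) r (s₁ + 1) A' B w v (by omega) (by nlinarith) h1 h3 hBv ?_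
          (h1.one_lt hv1) hB1 ?_
        · exact le_of_le_mul (c1.trans (h2.trans (hAu.trans h4)))
        · rcases hstr with h | h | h
          · left; nlinarith
          · exact Or.inr (Or.inl h)
          · right; right
            exact lt_of_mul_lt_mul_right'
              (lt_of_le_of_lt c1 (lt_of_le_of_lt h2 (lt_of_lt_of_le h h4)))
      · have k1 : v ≤ A := hA.le_of_le hv1.le hsr
        have k2 : u ≤ B := hB.le_of_le hu1.le hpq
        rcases hstr with h | h | h
        · rcases hsr.eq_or_lt with e1 | e1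
          · rcases hpq.eq_or_lt with e2 | e2
            · subst e1 e2
              exact absurd h (by rw [mul_comm]; exact lt_irrefl _)
            · exact absurd (lt_of_le_of_lt (hBv.trans (k1.trans hAu)) (hB.lt_of_lt hu1 e2))
                (lt_irrefl _)
          · exact absurd (lt_of_le_of_lt (hAu.trans (k2.trans hBv)) (hA.lt_of_lt hv1 e1))
              (lt_irrefl _)
        · exact absurd (lt_of_lt_of_le h (k1.trans (hAu.trans k2))) (lt_irrefl _)
        · exact absurd (lt_of_lt_of_le h (k2.trans (hBv.trans k1))) (lt_irrefl _)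

/-- Two summands of total fraction at least one. -/
theorem pair_false {a m b n : ℕ} {A B g : P} (hg : 1 < g) (hA : Dom a m g A) (hB : Dom b n g B)
    (hle : m * n ≤ a * n + b * m) (h : A * B ≤ g) (hs : m * n < a * n + b * m ∨ A * B < g) :
    False := by
  obtain ⟨ha, hm⟩ := hA.pos
  obtain ⟨hb, hn⟩ := hB.pos
  have hA1 := hA.one_lt hg
  have hB1 := hB.one_lt hg
  rcases Nat.lt_or_ge a m with h1 | h1
  · rcases Nat.lt_or_ge b n with h2 | h2
    · obtain ⟨r, rfl⟩ := Nat.exists_eq_add_of_lt h1
      obtain ⟨q, rfl⟩ := Nat.exists_eq_add_of_lt h2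
      obtain ⟨v, hv, h3, h4⟩ := hA.inv_serR (q₁ := r + 1) (by ring) (by omega)
      obtain ⟨u, hu, h5, h6⟩ := hB.inv_serL (q₁ := q + 1) (by ring) (by omega)
      refine mut_false _ b (q + 1) (r + 1) a A B u v le_rfl (by nlinarith) h3 h5
        (le_of_mul_le (h.trans h4)) (le_of_le_mul (h.trans h6)) hA1 hB1 ?_
      rcases hs with hs | hs
      · left; nlinarith
      · right; left
        exact lt_of_mul_lt_mul_left' (lt_of_lt_of_le hs h4)
    · exact absurd (lt_of_le_of_lt (hB.le_of_le hg.le h2) (lt_of_lt_of_le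
        (lt_mul_of_one_lt_left' _ hA1) h)) (lt_irrefl _)
  · exact absurd (lt_of_le_of_lt (hA.le_of_le hg.le h1) (lt_of_lt_of_le
      (lt_mul_of_one_lt_right' _ hB1) h)) (lt_irrefl _)

section triple

variable {a m b n : ℕ} {A B C g : P}

theorem triple_ABC (hC : 1 < C) (hF : a * n + b * m + 1 = m * n) (hA : Dom a m g A)
    (hB : Dom b n g B) (hc : g ≤ C ^ (m + n)) (h : A * B * C ≤ g) : False := by
  obtain ⟨ha, hm⟩ := hA.pos
  obtain ⟨hb, hn⟩ := hB.pos
  have h1 : a < m := by by_contra hcon; push Not at hcon; nlinarith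
  have h2 : b < n := by by_contra hcon; push Not at hcon; nlinarith
  obtain ⟨r, rfl⟩ := Nat.exists_eq_add_of_lt h1
  obtain ⟨q, rfl⟩ := Nat.exists_eq_add_of_lt h2
  obtain ⟨v, hv, h3, h4⟩ := hA.inv_serR (q₁ := r + 1) (by ring) (by omega)
  obtain ⟨u, hu, h5, h6⟩ := hB.inv_serR (q₁ := q + 1) (by ring) (by omega)
  have k1 : Dom a (r + 1) (B * C) A := by
    refine h3.mono (le_of_mul_le (x := A) ?_) le_rfl
    rw [← mul_assoc]; exact h.trans h4
  have k2 : Dom a (r + 1) (C * B) (B⁻¹ * A * B) := by
    have := k1.conj B⁻¹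
    rwa [inv_inv, inv_mul_cancel_left] at this
  have k3 : Dom b (q + 1) (B⁻¹ * A * B * C) B := by
    refine h5.mono (le_of_mul_le (x := B) ?_) le_rfl
    refine le_trans (le_of_eq ?_) (h.trans h6)
    group
  obtain ⟨-, -, -, k4, -⟩ := sys hC _ b (q + 1) (r + 1) a _ _ le_rfl (by nlinarith) k2 k3
  refine k4.false hC ?_
  rw [show b + (q + 1) + (r + 1) + a = a + r + 1 + (b + q + 1) by ring]
  refine le_trans (le_of_eq ?_) (h.trans hc)
  group

theorem triple_CBA (hC : 1 < C) (hF : a * n + b * m + 1 = m * n) (hA : Dom a m g A)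
    (hB : Dom b n g B) (hc : g ≤ C ^ (m + n)) (h : C * B * A ≤ g) : False := by
  obtain ⟨ha, hm⟩ := hA.pos
  obtain ⟨hb, hn⟩ := hB.pos
  have h1 : a < m := by by_contra hcon; push Not at hcon; nlinarith
  have h2 : b < n := by by_contra hcon; push Not at hcon; nlinarith
  obtain ⟨r, rfl⟩ := Nat.exists_eq_add_of_lt h1
  obtain ⟨q, rfl⟩ := Nat.exists_eq_add_of_lt h2
  obtain ⟨v, hv, h3, h4⟩ := hA.inv_serL (q₁ := r + 1) (by ring) (by omega)
  obtain ⟨u, hu, h5, h6⟩ := hB.inv_serL (q₁ := q + 1) (by ring) (by omega)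
  have k1 : Dom a (r + 1) (C * B) A := h3.mono (le_of_le_mul (x := A) (h.trans h4)) le_rfl
  have k2 : Dom a (r + 1) (B * C) (B * A * B⁻¹) := by
    have := k1.conj B
    rwa [← mul_assoc, mul_inv_cancel_right] at this
  have k3 : Dom b (q + 1) (C * (B * A * B⁻¹)) B := by
    refine h5.mono (le_of_le_mul (x := B) ?_) le_rfl
    refine le_trans (le_of_eq ?_) (h.trans h6)
    group
  obtain ⟨-, -, -, -, k4⟩ := sys hC _ a (r + 1) (q + 1) b _ _ le_rfl (by nlinarith) k3 k2
  refine k4.false hC ?_
  rw [show a + (r + 1) + (q + 1) + b = a + r + 1 + (b + q + 1) by ring]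
  refine le_trans (le_of_eq ?_) (h.trans hc)
  group

theorem triple_ACB (hC : 1 < C) (hF : a * n + b * m + 1 = m * n) (hA : Dom a m g A)
    (hB : Dom b n g B) (hc : g ≤ C ^ (m + n)) (h : A * C * B ≤ g) : False := by
  obtain ⟨ha, hm⟩ := hA.pos
  obtain ⟨hb, hn⟩ := hB.pos
  have h1 : a < m := by by_contra hcon; push Not at hcon; nlinarith
  have h2 : b < n := by by_contra hcon; push Not at hcon; nlinarith
  obtain ⟨r, rfl⟩ := Nat.exists_eq_add_of_lt h1
  obtain ⟨q, rfl⟩ := Nat.exists_eq_add_of_lt h2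
  obtain ⟨v, hv, h3, h4⟩ := hA.inv_serR (q₁ := r + 1) (by ring) (by omega)
  obtain ⟨u, hu, h5, h6⟩ := hB.inv_serL (q₁ := q + 1) (by ring) (by omega)
  have k1 : Dom a (r + 1) (C * B) A := by
    refine h3.mono (le_of_mul_le (x := A) ?_) le_rfl
    rw [← mul_assoc]; exact h.trans h4
  have k3 : Dom b (q + 1) (A * C) B := h5.mono (le_of_le_mul (x := B) (h.trans h6)) le_rfl
  obtain ⟨-, -, k4, -, -⟩ := sys hC _ b (q + 1) (r + 1) a _ _ le_rfl (by nlinarith) k1 k3
  refine k4.false hC ?_
  rw [show b + (q + 1) + (r + 1) + a = a + r + 1 + (b + q + 1) by ring]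
  exact h.trans hc

end triple

/-- Three summands, in any order. -/
theorem triple_false {a m b n : ℕ} {A B C g : P} (hC : 1 < C) (hF : a * n + b * m + 1 = m * n)
    (hA : Dom a m g A) (hB : Dom b n g B) (hc : g ≤ C ^ (m + n)) {l : List P}
    (hl : l.Perm [A, B, C]) (h : l.prod ≤ g) : False := by
  have hF' : b * m + a * n + 1 = n * m := by rw [mul_comm n m]; omega
  have hc' : g ≤ C ^ (n + m) := by rwa [add_comm n m]
  have hmem : l ∈ List.permutations' [A, B, C] := List.mem_permutations'.mpr hl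
  simp only [List.permutations', List.flatMap_cons, List.flatMap_nil, List.permutations'Aux,
    List.map_cons, List.map_nil, List.append_nil, List.mem_cons,
    List.not_mem_nil, or_false, List.cons_append, List.nil_append] at hmem
  rcases hmem with rfl | rfl | rfl | rfl | rfl | rfl <;>
    simp only [List.prod_cons, List.prod_nil, mul_one, ← mul_assoc] at h
  · exact triple_ABC hC hF hA hB hc h
  · exact triple_ABC hC hF' hB hA hc' h
  · exact triple_ACB hC hF' hB hA hc' h
  · exact triple_ACB hC hF hA hB hc h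
  · exact triple_CBA hC hF' hB hA hc' h
  · exact triple_CBA hC hF hA hB hc h

end Pool.Agent.Q184.LS
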