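import Pool.Agent.Q184.LS.Pair
import Pool.Agent.Q184.LS.Num

set_option autoImplicit false
set_option linter.unusedSectionVars false

/-!
# Products of elements with rational lower bounds
-/

namespace Pool.Agent.Q184.LS

open Pool.Agent.Y479.LS

variable {P : Type*} [Group P] [PartialOrder P] [MulLeftMono P] [MulRightMono P]

/-- `B ≥ γ g` for a rational number `γ ≥ 0`. -/
def DomQ (γ : ℚ) (g B : P) : Prop := 0 ≤ γ ∧ 1 ≤ B ∧ (0 < γ → Dom γ.num.toNat γ.den g B)

theorem Dom.toQ {p q : ℕ} {g B : P} (h : Dom p q g B) (hg : 1 ≤ g) : DomQ ((p : ℚ) / q) g B := by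
  refine ⟨by positivity, h.one_le hg, fun _ => ?_⟩
  have hc := h.coprime
  obtain ⟨hp, hq⟩ := h.pos
  have e1 : ((p : ℚ) / q).num = p := by
    have := Rat.num_div_eq_of_coprime (a := (p : ℤ)) (b := (q : ℤ)) (by omega)
      (by simpa using hc)
    simpa using this
  have e2 : ((p : ℚ) / q).den = q := by
    have := Rat.den_div_eq_of_coprime (a := (p : ℤ)) (b := (q : ℤ)) (by omega)
      (by simpa using hc)
    have h2 := Int.natCast_inj.mp this
    simpa using h2
  rw [e1, e2]
  simpa using h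

theorem DomQ.mono {γ : ℚ} {g g' B : P} (h : DomQ γ g B) (hg : g' ≤ g) : DomQ γ g' B :=
  ⟨h.1, h.2.1, fun h0 => (h.2.2 h0).mono hg le_rfl⟩

theorem DomQ.get {γ : ℚ} {g B : P} {a m : ℕ} (h : DomQ γ g B) (hg : 1 ≤ g) (ha : 1 ≤ a)
    (hc : a.Coprime m) (hle : (a : ℚ) / m ≤ γ) (hm : 1 ≤ m) : Dom a m g B := by
  have m0 : (0 : ℚ) < m := by exact_mod_cast hm
  have a0 : (0 : ℚ) < a := by exact_mod_cast ha
  have hγ : 0 < γ := lt_of_lt_of_le (by positivity) hle
  have h1 := h.2.2 hγ
  refine Dom.frac_mono _ _ _ a m g B le_rfl h1 hg hc ha hm ?_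
  have e : γ = (γ.num.toNat : ℚ) / γ.den := by
    have h2 : (γ.num.toNat : ℤ) = γ.num := Int.toNat_of_nonneg (Rat.num_nonneg.mpr h.1)
    have h3 : (γ.num.toNat : ℚ) = (γ.num : ℚ) := by exact_mod_cast h2
    rw [h3]
    exact (Rat.num_div_den γ).symm
  rw [e, div_le_div_iff₀ m0 (by exact_mod_cast γ.den_pos)] at hle
  exact_mod_cast hle

theorem DomQ.dom {γ : ℚ} {g B : P} (h : DomQ γ g B) (h0 : 0 < γ) :
    ∃ a m : ℕ, Dom a m g B ∧ γ = (a : ℚ) / m := by
  refine ⟨_, _, h.2.2 h0, ?_⟩
  have h2 : (γ.num.toNat : ℤ) = γ.num := Int.toNat_of_nonneg (Rat.num_nonneg.mpr h.1)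
  have h3 : (γ.num.toNat : ℚ) = (γ.num : ℚ) := by exact_mod_cast h2
  rw [h3]
  exact (Rat.num_div_den γ).symm

theorem prod_le_of_sublist {l l' : List P} (h : List.Sublist l l') (h1 : ∀ x ∈ l', 1 ≤ x) :
    l.prod ≤ l'.prod := by
  induction h with
  | slnil => exact le_rfl
  | cons a _ ih =>
    rw [List.prod_cons]
    exact (ih fun x hx => h1 x (List.mem_cons_of_mem _ hx)).trans
      (le_mul_of_one_le_left' (h1 a List.mem_cons_self))
  | cons_cons a _ ih =>
    rw [List.prod_cons, List.prod_cons]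
    exact mul_le_mul_right (ih fun x hx => h1 x (List.mem_cons_of_mem _ hx)) _

theorem perm_two {α : Type*} {l : List α} {x y : α} (h : l.Perm [x, y]) :
    l = [x, y] ∨ l = [y, x] := by
  have hmem : l ∈ List.permutations' [x, y] := List.mem_permutations'.mpr h
  simpa [List.permutations'] using hmem

theorem perm_three {α : Type*} {l : List α} {x y z : α} (h : l.Perm [x, y, z]) :
    l = [x, y, z] ∨ l = [y, x, z] ∨ l = [y, z, x] ∨ l = [x, z, y] ∨ l = [z, x, y] ∨
      l = [z, y, x] := by
  have hmem : l ∈ List.permutations' [x, y, z] := List.mem_permutations'.mpr h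
  simpa [List.permutations'] using hmem

/-- **The inequality.** No product of elements with lower bounds whose total exceeds one and that do
not satisfy the criterion of Jankins, Neumann and Naimi is at most `g`. -/
theorem product_false {L : List (ℚ × P)} {g : P} (hg : 1 < g) (hL : ∀ x ∈ L, DomQ x.1 g x.2)
    (h1 : 1 < (L.map Prod.fst).sum) (hF : ¬ Foliated (L.map Prod.fst))
    (h : (L.map Prod.snd).prod ≤ g) : False := by
  have hsub : ∀ l' : List (ℚ × P), List.Sublist l' L → (l'.map Prod.snd).prod ≤ g ∧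
      ∀ x ∈ l', DomQ x.1 g x.2 := by
    intro l' hl'
    refine ⟨(prod_le_of_sublist (hl'.map _) ?_).trans h, fun x hx => hL x (hl'.subset hx)⟩
    intro x hx
    obtain ⟨y, hy, rfl⟩ := List.mem_map.mp hx
    exact (hL y hy).2.1
  have pos : ∀ x : ℚ × P, DomQ x.1 g x.2 → 0 < x.1 → 1 < x.2 := by
    intro x hx h0
    obtain ⟨a, m, h2, -⟩ := hx.dom h0
    exact h2.one_lt hg
  have two : ∀ x y : ℚ × P, DomQ x.1 g x.2 → DomQ y.1 g y.2 → 0 < x.1 → 0 < y.1 →
      1 ≤ x.1 + y.1 → x.2 * y.2 ≤ g → (1 < x.1 + y.1 ∨ x.2 * y.2 < g) → False := by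
    intro x y hx hy hx0 hy0 hle hxy hs
    obtain ⟨a, m, h2, h3⟩ := hx.dom hx0
    obtain ⟨b, n, h4, h5⟩ := hy.dom hy0
    obtain ⟨-, hm⟩ := h2.pos
    obtain ⟨-, hn⟩ := h4.pos
    have m0 : (0 : ℚ) < m := by exact_mod_cast hm
    have n0 : (0 : ℚ) < n := by exact_mod_cast hn
    rw [h3, h5] at hle hs
    rw [div_add_div _ _ m0.ne' n0.ne'] at hle hs
    rw [one_le_div (by positivity)] at hle
    rw [one_lt_div (by positivity)] at hs
    have hle' : m * n ≤ a * n + m * b := by exact_mod_cast hle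
    refine pair_false hg h2 h4 (by nlinarith) hxy ?_
    rcases hs with hs | hs
    · left
      have : m * n < a * n + m * b := by exact_mod_cast hs
      nlinarith
    · exact Or.inr hs
  rcases jnn Prod.fst L (fun x hx => (hL x hx).1) h1 hF with
    ⟨x, ⟨l', hp, hl'⟩, hx⟩ | ⟨x, y, ⟨l', hp, hl'⟩, hxy⟩ | ⟨x, y, z, ⟨l', hp, hl'⟩, hz0, hx0, hy0, h2⟩
  · obtain ⟨k1, k2⟩ := hsub l' hl'
    obtain rfl := List.perm_singleton.mp hp
    have k3 := k2 x (by simp)
    obtain ⟨a, m, h4, h5⟩ := k3.dom (by linarith)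
    obtain ⟨-, hm⟩ := h4.pos
    have m0 : (0 : ℚ) < m := by exact_mod_cast hm
    rw [h5, one_lt_div m0] at hx
    have h6 : m < a := by exact_mod_cast hx
    simp only [List.map_cons, List.map_nil, List.prod_cons, List.prod_nil, mul_one] at k1
    exact absurd (lt_of_lt_of_le (h4.lt_of_lt hg h6) k1) (lt_irrefl _)
  · obtain ⟨k1, k2⟩ := hsub l' hl'
    have kx := k2 x (hp.mem_iff.mpr (by simp))
    have ky := k2 y (hp.mem_iff.mpr (by simp))
    -- both fractions are positive, or one of them is larger than one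
    have key : ∀ x y : ℚ × P, DomQ x.1 g x.2 → DomQ y.1 g y.2 → 1 < x.1 + y.1 → x.2 * y.2 ≤ g →
        False := by
      intro x y kx ky hxy hle
      rcases kx.1.lt_or_eq with hx0 | hx0
      · rcases ky.1.lt_or_eq with hy0 | hy0
        · exact two x y kx ky hx0 hy0 hxy.le hle (Or.inl hxy)
        · have h3 : 1 < x.1 := by linarith
          obtain ⟨a, m, h4, h5⟩ := kx.dom hx0
          obtain ⟨-, hm⟩ := h4.pos
          have m0 : (0 : ℚ) < m := by exact_mod_cast hm
          rw [h5, one_lt_div m0] at h3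
          have h6 : m < a := by exact_mod_cast h3
          exact absurd (lt_of_lt_of_le (h4.lt_of_lt hg h6)
            ((le_mul_of_one_le_right' ky.2.1).trans hle)) (lt_irrefl _)
      · have h3 : 1 < y.1 := by linarith
        obtain ⟨a, m, h4, h5⟩ := ky.dom (by linarith)
        obtain ⟨-, hm⟩ := h4.pos
        have m0 : (0 : ℚ) < m := by exact_mod_cast hm
        rw [h5, one_lt_div m0] at h3
        have h6 : m < a := by exact_mod_cast h3
        exact absurd (lt_of_lt_of_le (h4.lt_of_lt hg h6)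
          ((le_mul_of_one_le_left' kx.2.1).trans hle)) (lt_irrefl _)
    rcases perm_two hp with rfl | rfl
    · simp only [List.map_cons, List.map_nil, List.prod_cons, List.prod_nil, mul_one] at k1
      exact key x y kx ky hxy k1
    · simp only [List.map_cons, List.map_nil, List.prod_cons, List.prod_nil, mul_one] at k1
      exact key y x ky kx (by linarith) k1
  · obtain ⟨k1, k2⟩ := hsub l' hl'
    have kx := k2 x (hp.mem_iff.mpr (by simp))
    have ky := k2 y (hp.mem_iff.mpr (by simp))
    have kz := k2 z (hp.mem_iff.mpr (by simp))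
    have z1 := pos z kz hz0
    rcases h2 with h2 | ⟨a, m, b, n, ha, hb, hF', l1, l2, l3⟩
    · have e1 : x.2 * y.2 < g → False := fun h3 => two x y kx ky hx0 hy0 h2 h3.le (Or.inr h3)
      have e2 : y.2 * x.2 < g → False := fun h3 =>
        two y x ky kx hy0 hx0 (by linarith) h3.le (Or.inr h3)
      rcases perm_three hp with rfl | rfl | rfl | rfl | rfl | rfl <;>
        simp only [List.map_cons, List.map_nil, List.prod_cons, List.prod_nil, mul_one] at k1
      · refine e1 (lt_of_lt_of_le (mul_lt_mul_right ?_ _) k1)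
        exact lt_mul_of_one_lt_right' _ z1
      · refine e2 (lt_of_lt_of_le (mul_lt_mul_right ?_ _) k1)
        exact lt_mul_of_one_lt_right' _ z1
      · refine e2 (lt_of_lt_of_le (mul_lt_mul_right ?_ _) k1)
        exact lt_mul_of_one_lt_left' _ z1
      · refine e1 (lt_of_lt_of_le (mul_lt_mul_right ?_ _) k1)
        exact lt_mul_of_one_lt_left' _ z1
      · exact e1 (lt_of_lt_of_le (lt_mul_of_one_lt_left' _ z1) k1)
      · exact e2 (lt_of_lt_of_le (lt_mul_of_one_lt_left' _ z1) k1)
    · have hm : 1 ≤ m := by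
        rcases Nat.eq_zero_or_pos m with h3 | h3
        · subst h3; omega
        · exact h3
      have hn : 1 ≤ n := by
        rcases Nat.eq_zero_or_pos n with h3 | h3
        · subst h3; omega
        · exact h3
      have c1 : a.Coprime m := by
        have : IsCoprime (a : ℤ) (m : ℤ) := ⟨-n, n - b, by
          have : (a : ℤ) * n + b * m + 1 = m * n := by exact_mod_cast hF'
          linarith⟩
        exact Nat.isCoprime_iff_coprime.mp this
      have c2 : b.Coprime n := by
        have : IsCoprime (b : ℤ) (n : ℤ) := ⟨-m, m - a, by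
          have : (a : ℤ) * n + b * m + 1 = m * n := by exact_mod_cast hF'
          linarith⟩
        exact Nat.isCoprime_iff_coprime.mp this
      have dA := kx.get hg.le ha c1 l1 hm
      have dB := ky.get hg.le hb c2 l2 hn
      have dC : Dom 1 (m + n) g z.2 := by
        refine kz.get hg.le le_rfl (Nat.coprime_one_left _) ?_ (by omega)
        push_cast; exact l3
      refine triple_false (l := l'.map Prod.snd) z1 hF' dA dB (dC.le_pow rfl) ?_ k1
      exact hp.map Prod.snd

end Pool.Agent.Q184.LS
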