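import Pool.Agent.Q184.LS.Net

set_option autoImplicit false
set_option linter.unusedSectionVars false

/-!
# Rational tangles in series
-/

namespace Pool.Agent.Q184.LS

open Pool.Agent.Y479.LS Relation

section defs

variable {V E C : Type} (v₁ v₂ : C → V) (e₁ e₂ : C → E) (p q : V) (a b : E)

/-- `Series l u v`: the diagram contains, one after the other from the region `u` to the region `v`, the
rational tangles `m / k ≥ 1` for the pairs `(m, k)` in `l`; each of them between the two regions `a`,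
`b` of the other colour at the boundary circle. -/
inductive Series : List (ℕ × ℕ) → V → V → Prop
  | nil {u v : V} : Below v₁ v₂ e₁ e₂ p q a b (Sum.inl v) (Sum.inl u) → Series [] u v
  | cons {l : List (ℕ × ℕ)} {m k : ℕ} {u w v : V} : Has v₁ v₂ e₁ e₂ p q a b m k u w a b →
      Below v₁ v₂ e₁ e₂ p q a b (Sum.inl u) (Sum.inl w) → k ≤ m → Series l w v →
      Series ((m, k) :: l) u v

end defs

section sound

variable {V E C : Type} {v₁ v₂ : C → V} {e₁ e₂ : C → E} {p q : V} {a b : E}
  {star : V → List (C × Bool)} {star' : E → List (C × Bool)}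
variable {X : Type*} [LinearOrder X] {f : V → Aut X} {h : E → Aut X}

theorem Series.sound [Finite V] [Finite E] (S : Side v₁ v₂ e₁ e₂ p q a b star)
    (S' : Side e₁ e₂ v₁ v₂ a b p q star')
    (hr : Side.Rel v₁ v₂ e₁ e₂ f h) (hr' : Side.Rel e₁ e₂ v₁ v₂ h f) (hf : Bounds f p q)
    (hh : Bounds h a b) {l : List (ℕ × ℕ)} {u v : V} (H : Series v₁ v₂ e₁ e₂ p q a b l u v) :
    ∃ L : List (ℚ × Aut X), L.map Prod.fst = (l.map (fun x => 1 - (x.2 : ℚ) / x.1)).reverse ∧
      (∀ x ∈ L, DomQ x.1 (h b) x.2) ∧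
      (f u)⁻¹ * f v * (L.map Prod.snd).prod ≤ h b ^ l.length := by
  have hA : 1 < h b := hh.pos b S'.ne.symm
  have hab : (h a)⁻¹ * h b = h b := by rw [hh.base, inv_one, one_mul]
  induction H with
  | @nil u v h1 =>
    have k1 : f v ≤ f u := h1.sound S S' hr hr' hf hh
    refine ⟨[], rfl, by simp, ?_⟩
    rw [List.map_nil, List.prod_nil, mul_one, List.length_nil, pow_zero, inv_mul_le_iff_le_mul,
      mul_one]
    exact k1
  | @cons l m k u w v h1 h2 hkm _ ih =>
    obtain ⟨L, k1, k2, k3⟩ := ih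
    have k4 := h1.sound S S' hr hr' hf hh
    rw [hab] at k4
    have k5 : f u ≤ f w := h2.sound S S' hr hr' hf hh
    set U := (f u)⁻¹ * f w with hU
    have hU1 : 1 ≤ U := by rw [hU, le_inv_mul_iff_mul_le, mul_one]; exact k5
    have hUA : U ≤ h b := k4.le_of_le hU1 hkm
    have hU2 : 1 ≤ U⁻¹ * h b := by rw [le_inv_mul_iff_mul_le, mul_one]; exact hUA
    obtain ⟨hm, hk⟩ := k4.pos
    have m0 : (0 : ℚ) < m := by exact_mod_cast hm
    have dU : DomQ (1 - (k : ℚ) / m) (h b) (U⁻¹ * h b) := by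
      rcases hkm.eq_or_lt with h3 | h3
      · subst h3
        rw [div_self m0.ne', sub_self]
        exact ⟨le_rfl, hU2, fun h => absurd h (lt_irrefl _)⟩
      · obtain ⟨j, rfl⟩ := Nat.exists_eq_add_of_lt h3
        obtain ⟨A', h4, h5⟩ := k4.inv_parL (p₁ := j + 1) (by ring) (by omega)
        have h6 : A' ≤ U⁻¹ * h b := by rw [le_inv_mul_iff_mul_le]; exact h5
        have h7 : Dom (j + 1) (j + 1 + k) (h b) (U⁻¹ * h b) := by
          refine Dom.serL hU1 (h4.mono le_rfl h6) ?_
          rw [mul_inv_cancel_left]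
        have h8 := h7.toQ hA.le
        have e : ((j + 1 : ℕ) : ℚ) / ((j + 1 + k : ℕ) : ℚ) =
            1 - (k : ℚ) / ((k + j + 1 : ℕ) : ℚ) := by
          have : ((j + 1 + k : ℕ) : ℚ) = ((k + j + 1 : ℕ) : ℚ) := by congr 1; ring
          rw [this, eq_sub_iff_add_eq, ← add_div, div_eq_one_iff_eq m0.ne']
          push_cast; ring
        rwa [e] at h8
    set B := (h b ^ l.length)⁻¹ * (U⁻¹ * h b) * h b ^ l.length with hB
    have dB : DomQ (1 - (k : ℚ) / m) (h b) B := by
      refine ⟨dU.1, one_le_conj' _ dU.2.1, fun h0 => ?_⟩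
      have := (dU.2.2 h0).conj (h b ^ l.length)⁻¹
      rw [inv_inv] at this
      have e : (h b ^ l.length)⁻¹ * h b * h b ^ l.length = h b := by
        rw [mul_assoc, ← pow_succ', pow_succ, inv_mul_cancel_left]
      rwa [e] at this
    refine ⟨L ++ [(1 - (k : ℚ) / m, B)], ?_, ?_, ?_⟩
    · rw [List.map_append, k1]
      simp
    · intro x hx
      rcases List.mem_append.mp hx with hx | hx
      · exact k2 x hx
      · rw [List.mem_singleton.mp hx]; exact dB
    · rw [List.map_append, List.prod_append, List.length_cons]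
      simp only [List.map_cons, List.map_nil, List.prod_cons, List.prod_nil, mul_one]
      calc (f u)⁻¹ * f v * ((L.map Prod.snd).prod * B)
          = U * ((f w)⁻¹ * f v * (L.map Prod.snd).prod) * B := by rw [hU]; group
        _ ≤ U * h b ^ l.length * B := mul_le_mul_left (mul_le_mul_right k3 _) _
        _ = h b ^ (l.length + 1) := by
          rw [hB, pow_succ' (h b) l.length]; group

end sound

section close

variable {P : Type*} [Group P] [PartialOrder P] [MulLeftMono P] [MulRightMono P]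

theorem Dom.peelPar {t : ℕ} {A : P} : ∀ (N r₀ : ℕ) (g : P), 1 ≤ r₀ → Dom (r₀ + N * t) t A g →
    ∃ X, Dom r₀ t A X ∧ A ^ N * X ≤ g
  | 0, r₀, g, _, h => ⟨g, by simpa using h, by rw [pow_zero, one_mul]⟩
  | N + 1, r₀, g, hr, h => by
    obtain ⟨g', h1, h2⟩ := h.inv_parL (p₁ := r₀ + N * t) (by ring) (by omega)
    obtain ⟨X, h3, h4⟩ := Dom.peelPar N r₀ g' hr h1
    refine ⟨X, h3, ?_⟩
    rw [pow_succ', mul_assoc]
    exact (mul_le_mul_right h4 _).trans h2

theorem Foliated.perm {L L' : List ℚ} (h : L.Perm L') (hF : Foliated L) : Foliated L' := by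
  obtain ⟨M, a, x, y, rest, h1, h2, h3, h4, h5, h6⟩ := hF
  exact ⟨M, a, x, y, rest, h1, h2, h.symm.trans h3, h4, h5, h6⟩

/-- The final contradiction for tangles in series. -/
theorem close_series {L : List (ℚ × P)} {g A : P} {K t r : ℕ} (hg : 1 < g) (hA1 : 1 < A)
    (hL : ∀ x ∈ L, DomQ x.1 A x.2) (hA : g * (L.map Prod.snd).prod ≤ A ^ K) (hT : Dom r t A g)
    (hr : K * t ≤ r + t)
    (h1 : 1 < (((r : ℚ) / t - ((K : ℚ) - 1)) :: L.map Prod.fst).sum)
    (hF : ¬ Foliated (((r : ℚ) / t - ((K : ℚ) - 1)) :: L.map Prod.fst)) : False := by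
  set Y := (L.map Prod.snd).prod with hY
  obtain ⟨hr1, ht⟩ := hT.pos
  have t0 : (0 : ℚ) < t := by exact_mod_cast ht
  have hY1 : 1 ≤ Y := by
    have := prod_le_of_sublist (List.nil_sublist (L.map Prod.snd)) (one_le_list hL)
    rwa [List.prod_nil] at this
  rcases K with _ | N
  · rw [pow_zero] at hA
    exact absurd ((le_mul_of_one_le_right' hY1).trans hA) (not_le_of_gt hg)
  have hr' : N * t ≤ r := by nlinarith
  obtain ⟨r₀, rfl⟩ := Nat.exists_eq_add_of_le hr'
  have eK : ((N * t + r₀ : ℕ) : ℚ) / t - (((N + 1 : ℕ) : ℚ) - 1) = (r₀ : ℚ) / t := by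
    push_cast
    rw [add_div, mul_div_assoc, div_self t0.ne']
    ring
  rw [eK] at h1 hF
  obtain ⟨X, hX, hXg⟩ : ∃ X, DomQ ((r₀ : ℚ) / t) A X ∧ A ^ N * X ≤ g := by
    rcases Nat.eq_zero_or_pos r₀ with h2 | h2
    · subst h2
      rcases N with _ | N
      · omega
      · obtain ⟨X, h3, h4⟩ := Dom.peelPar (t := t) (A := A) N t g ht (by
          have e : t + N * t = (N + 1) * t + 0 := by ring
          rw [e]; exact hT)
        have h5 := (h3.inv_unit rfl).2
        refine ⟨1, ⟨by simp, le_rfl, fun h => absurd h (by simp)⟩, ?_⟩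
        rw [mul_one, pow_succ]
        exact (mul_le_mul_right h5 _).trans h4
    · obtain ⟨X, h3, h4⟩ := Dom.peelPar (t := t) (A := A) N r₀ g h2 (by
        rw [add_comm]; exact hT)
      exact ⟨X, h3.toQ hA1.le, h4⟩
  refine product_false (L := ((r₀ : ℚ) / t, X) :: L) hA1 ?_ h1 hF ?_
  · intro x hx
    rcases List.mem_cons.mp hx with rfl | hx
    · exact hX
    · exact hL x hx
  · rw [List.map_cons, List.prod_cons]
    refine le_of_mul_le (x := A ^ N) ?_
    calc A ^ N * (X * Y) = A ^ N * X * Y := by rw [mul_assoc]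
      _ ≤ g * Y := mul_le_mul_left hXg _
      _ ≤ A ^ (N + 1) := hA
      _ = A ^ N * A := pow_succ _ _

end close

end Pool.Agent.Q184.LS
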